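import Pool.Agent.H20PT.KP.Box

/-!
# Almost all tuples are regular; the symbols and the labels are independent
-/

set_option autoImplicit false
set_option linter.unusedVariables false

open scoped Classical

namespace Pool.Agent.H20PT.KP

open Finset Filter Topology
open Pool.Agent.Y703.CX (sm la jj XX)
open Pool.Agent.Y703.CQ (nr sg prs HB S_EQ)
open Pool.Agent.R413.SQ (SS Cl of_pr1)
open Pool.Agent.R413.SQ.CNT (cut_count coll_count)

/-- a set of primes has few enumerations -/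
theorem enum (k : ℕ) (A : Finset (Fin k → ℕ)) (F : Finset (Finset ℕ))
    (h : ∀ p ∈ A, univ.image p ∈ F) : A.card ≤ k ^ k * F.card := by
  have h1 := card_le_mul_card_image (f := fun p : Fin k → ℕ => univ.image p) A (k ^ k) (by
    intro S hS
    rw [mem_image] at hS
    obtain ⟨p₀, hp₀, hp₀S⟩ := hS
    have hSc : S.card ≤ k := by
      rw [← hp₀S]
      refine card_image_le.trans ?_
      rw [card_univ, Fintype.card_fin]
    have hsub : (A.filter fun p => univ.image p = S) ⊆ Fintype.piFinset fun _ : Fin k => S := by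
      intro p hp
      rw [mem_filter] at hp
      rw [Fintype.mem_piFinset]
      intro i
      rw [← hp.2]
      exact mem_image_of_mem _ (mem_univ _)
    refine (card_le_card hsub).trans ?_
    rw [Fintype.card_piFinset, prod_const, card_univ, Fintype.card_fin]
    exact Nat.pow_le_pow_left hSc k)
  refine h1.trans (Nat.mul_le_mul_left _ (card_le_card fun S hS => ?_))
  rw [mem_image] at hS
  obtain ⟨p, hp, rfl⟩ := hS
  exact h p hp

theorem im_SS {k X : ℕ} {p : Fin k → ℕ} (hp : p ∈ TT k X) : univ.image p ∈ SS ∅ ∅ X := by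
  rw [mem_TT] at hp
  obtain ⟨h1, h2, h3⟩ := hp
  have h4 : ∏ q ∈ univ.image p, q = ∏ i, p i := prod_image fun a _ b _ hab => h2 hab
  unfold SS
  rw [mem_filter, mem_powerset]
  refine ⟨?_, ?_, ?_⟩
  · intro q hq
    rw [mem_image] at hq
    obtain ⟨i, -, rfl⟩ := hq
    rw [mem_range]
    have := Nat.le_of_dvd (prod_pos' h1) (dvd_prod_of_mem p (mem_univ i))
    omega
  · intro q hq
    rw [mem_image] at hq
    obtain ⟨i, -, rfl⟩ := hq
    exact of_pr1 ∅ (h1 i).1 (h1 i).2
  · rw [h4]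
    exact h3

theorem nonreg (n : ℕ) {X z H : ℕ} (hX : 1 ≤ X) (hH : 1 ≤ H) :
    (((TT (n + 1) X).filter fun p => p ∉ Rg n H z X).card : ℝ) ≤
      (((TT (n + 1) X).filter fun p => ∃ j, p j ≤ z).card : ℝ) +
      (n + 1 : ℝ) ^ (n + 1) * (4 * X * (1 + Real.log X) / H + (X * (n + 1 : ℕ) / H + 1)) := by
  set A := (TT (n + 1) X).filter fun p => ∃ j, p j ≤ z with hA
  set B := (TT (n + 1) X).filter fun p => ¬ Function.Injective (fun i => jj H (p i)) with hB
  set C := (TT (n + 1) X).filter fun p => X < ∏ i, XX H (jj H (p i)) ∧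
    Function.Injective (fun i => jj H (p i)) with hC
  set FB := (SS ∅ ∅ X).filter fun S => ¬ Set.InjOn (jj H) (la 0 S : Set ℕ) with hFB
  set FC := (SS ∅ ∅ X).filter fun S => S.card ≤ n + 1 ∧
    X < (∏ p ∈ sm 0 S, p) * ∏ p ∈ la 0 S, XX H (jj H p) with hFC
  have hla : ∀ p ∈ TT (n + 1) X, la 0 (univ.image p) = univ.image p ∧ sm 0 (univ.image p) = ∅ := by
    intro p hp
    rw [mem_TT] at hp
    have h0 : ∀ q ∈ univ.image p, ¬ q ≤ 0 := by
      intro q hq
      rw [mem_image] at hq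
      obtain ⟨i, -, rfl⟩ := hq
      have := (hp.1 i).1.pos
      omega
    unfold la sm
    exact ⟨filter_true_of_mem h0, filter_false_of_mem h0⟩
  have hsub : (TT (n + 1) X).filter (fun p => p ∉ Rg n H z X) ⊆ A ∪ (B ∪ C) := by
    intro p hp
    rw [mem_filter] at hp
    obtain ⟨hp1, hp2⟩ := hp
    rw [mem_union, mem_union, hA, hB, hC, mem_filter, mem_filter, mem_filter]
    by_contra hcon
    push Not at hcon
    obtain ⟨c1, c2, c3⟩ := hcon
    apply hp2
    unfold Rg
    rw [mem_filter]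
    have c4 := c2 hp1
    refine ⟨hp1, fun i => c1 hp1 i, c4, ?_⟩
    by_contra h
    exact c3 hp1 (by omega) c4
  have hBc : B.card ≤ (n + 1) ^ (n + 1) * FB.card := by
    apply enum
    intro p hp
    rw [hB, mem_filter] at hp
    rw [hFB, mem_filter, (hla p hp.1).1]
    refine ⟨im_SS hp.1, fun h => hp.2 fun a b hab => ?_⟩
    have := h (mem_coe.2 (mem_image_of_mem p (mem_univ a)))
      (mem_coe.2 (mem_image_of_mem p (mem_univ b))) hab
    exact (mem_TT.1 hp.1).2.1 this
  have hCc : C.card ≤ (n + 1) ^ (n + 1) * FC.card := by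
    apply enum
    intro p hp
    rw [hC, mem_filter] at hp
    rw [hFC, mem_filter, (hla p hp.1).1, (hla p hp.1).2, prod_empty, one_mul]
    refine ⟨im_SS hp.1, ?_, ?_⟩
    · refine card_image_le.trans ?_
      rw [card_univ, Fintype.card_fin]
    · rw [prod_image fun a _ b _ hab => (mem_TT.1 hp.1).2.1 hab]
      exact hp.2.1
  have h1 : (FB.card : ℝ) ≤ 4 * X * (1 + Real.log X) / H := coll_count hH
  have h2 : (FC.card : ℝ) ≤ X * (n + 1 : ℕ) / H + 1 := cut_count hH
  have h3 : (((TT (n + 1) X).filter fun p => p ∉ Rg n H z X).card : ℝ) ≤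
      (A.card : ℝ) + ((B.card : ℝ) + (C.card : ℝ)) := by
    have := (card_le_card hsub).trans ((card_union_le _ _).trans
      (Nat.add_le_add_left (card_union_le _ _) _))
    exact_mod_cast this
  have h4 : (B.card : ℝ) ≤ (n + 1 : ℝ) ^ (n + 1) * (4 * X * (1 + Real.log X) / H) := by
    have : (B.card : ℝ) ≤ (n + 1 : ℝ) ^ (n + 1) * FB.card := by exact_mod_cast hBc
    exact this.trans (mul_le_mul_of_nonneg_left h1 (by positivity))
  have h5 : (C.card : ℝ) ≤ (n + 1 : ℝ) ^ (n + 1) * (X * (n + 1 : ℕ) / H + 1) := by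
    have : (C.card : ℝ) ≤ (n + 1 : ℝ) ^ (n + 1) * FC.card := by exact_mod_cast hCc
    exact this.trans (mul_le_mul_of_nonneg_left h2 (by positivity))
  rw [mul_add]
  linarith

theorem ng_pow (n : ℕ) (a : ℕ) (C : ℝ) : Ng n fun X : ℕ => C * ((X : ℝ) / Real.log X ^ (a + 2)) := by
  refine Ng.const_mul ?_ C
  have h1 : Tendsto (fun X : ℕ => (Real.log (X : ℝ))⁻¹) atTop (𝓝 0) :=
    tendsto_inv_atTop_zero.comp t_log
  unfold Ng
  refine squeeze_zero' ?_ ?_ h1
  · filter_upwards [W_pos n, t_log.eventually_gt_atTop 0] with X h2 h3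
    positivity
  · filter_upwards [W_pos n, t_log.eventually_ge_atTop 1, W_mono n, eventually_gt_atTop 0]
      with X h2 h3 h4 h5
    have hX : (0 : ℝ) < X := by exact_mod_cast h5
    have hl : 0 < Real.log (X : ℝ) := by linarith
    rw [div_le_iff₀ h2]
    have h6 : (X : ℝ) / Real.log X ^ (a + 2) ≤ (Real.log (X : ℝ))⁻¹ * (X / Real.log X) := by
      have e : (Real.log (X : ℝ))⁻¹ * (X / Real.log X) = X / Real.log X ^ 2 := by
        field_simp
      rw [e]
      exact div_le_div_of_nonneg_left hX.le (by positivity) (pow_le_pow_right₀ h3 (by omega))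
    exact h6.trans (mul_le_mul_of_nonneg_left h4 (by positivity))

theorem ng_one (n : ℕ) (C : ℝ) : Ng n fun _ : ℕ => C := by
  have h1 : Tendsto (fun X : ℕ => |C| * (Real.log (X : ℝ) / X)) atTop (𝓝 0) := by
    have := ((Real.isLittleO_log_id_atTop.tendsto_div_nhds_zero).comp
      (tendsto_natCast_atTop_atTop (R := ℝ))).const_mul |C|
    rw [mul_zero] at this
    exact this
  unfold Ng
  refine squeeze_zero_norm' ?_ h1
  filter_upwards [W_pos n, t_log.eventually_gt_atTop 0, W_mono n, eventually_gt_atTop 0]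
    with X h2 h3 h4 h5
  have hX : (0 : ℝ) < X := by exact_mod_cast h5
  rw [Real.norm_eq_abs, abs_div, abs_of_pos h2, div_le_iff₀ h2]
  have h6 : |C| * (Real.log (X : ℝ) / X) * (X / Real.log X) = |C| := by
    field_simp
  calc |C| = |C| * (Real.log (X : ℝ) / X) * (X / Real.log X) := h6.symm
    _ ≤ _ := mul_le_mul_of_nonneg_left h4 (by positivity)

/-- the parameters -/
noncomputable def Hx (X : ℕ) : ℕ := ⌊Real.log X ^ 3⌋₊ + 1

noncomputable def Zx (B : ℕ) (X : ℕ) : ℕ := ⌊Real.log X ^ B⌋₊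

/-- almost all tuples are regular -/
theorem ng_nonreg (n B : ℕ) : Ng n fun X : ℕ =>
    (((TT (n + 1) X).filter fun p => p ∉ Rg n (Hx X) (Zx B X) X).card : ℝ) := by
  have h1 : Ng n fun X : ℕ => (((TT (n + 1) X).filter fun p => ∃ j, p j ≤ Zx B X).card : ℝ) := by
    refine small n (Zx B) B ?_
    filter_upwards [t_log.eventually_ge_atTop 0] with X hX
    exact Nat.floor_le (by positivity)
  have h2 := ((h1.add (ng_pow n 0 ((n + 1 : ℝ) ^ (n + 1) * (8 + (n + 1))))).add
    (ng_one n ((n + 1 : ℝ) ^ (n + 1))))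
  refine h2.of_le ?_
  filter_upwards [eventually_ge_atTop 1, t_log.eventually_ge_atTop 1] with X hX hl
  rw [abs_of_nonneg (Nat.cast_nonneg _)]
  have hX0 : (0 : ℝ) < X := by exact_mod_cast hX
  have hH : 1 ≤ Hx X := by unfold Hx; omega
  refine (nonreg n (z := Zx B X) hX hH).trans ?_
  have hHl : Real.log X ^ 3 ≤ (Hx X : ℝ) := by
    unfold Hx
    push_cast
    exact (Nat.lt_floor_add_one _).le
  have hH0 : (0 : ℝ) < Hx X := by exact_mod_cast hH
  have hl0 : 0 < Real.log (X : ℝ) := by linarith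
  have e1 : 4 * (X : ℝ) * (1 + Real.log X) / Hx X ≤ 8 * (X / Real.log X ^ 2) := by
    calc 4 * (X : ℝ) * (1 + Real.log X) / Hx X ≤ 4 * (X : ℝ) * (1 + Real.log X) / Real.log X ^ 3 :=
          div_le_div_of_nonneg_left (by positivity) (by positivity) hHl
      _ ≤ 4 * (X : ℝ) * (2 * Real.log X) / Real.log X ^ 3 := by
          gcongr
          linarith
      _ = 8 * (X / Real.log X ^ 2) := by
          field_simp
          ring
  have e2 : (X : ℝ) * (n + 1 : ℕ) / Hx X ≤ (n + 1) * (X / Real.log X ^ 2) := by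
    push_cast
    calc (X : ℝ) * (n + 1) / Hx X ≤ X * (n + 1) / Real.log X ^ 3 :=
          div_le_div_of_nonneg_left (by positivity) (by positivity) hHl
      _ ≤ X * (n + 1) / Real.log X ^ 2 := by
          refine div_le_div_of_nonneg_left (by positivity) (by positivity) ?_
          exact pow_le_pow_right₀ hl (by norm_num)
      _ = _ := by ring
  have e3 : (0 : ℝ) ≤ (n + 1 : ℝ) ^ (n + 1) := by positivity
  have e4 := mul_le_mul_of_nonneg_left (add_le_add e1 (add_le_add e2 (le_refl (1 : ℝ)))) e3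
  rw [add_assoc]
  refine add_le_add le_rfl (e4.trans (le_of_eq ?_))
  rw [zero_add]
  ring

theorem rg_diff (n H z X : ℕ) (P : (Fin (n + 1) → ℕ) → Prop) [DecidablePred P] :
    (((Rg n H z X).filter P).card : ℝ) ≤ (((TT (n + 1) X).filter P).card : ℝ) ∧
    (((TT (n + 1) X).filter P).card : ℝ) ≤ (((Rg n H z X).filter P).card : ℝ) +
      (((TT (n + 1) X).filter fun p => p ∉ Rg n H z X).card : ℝ) := by
  have hsub : Rg n H z X ⊆ TT (n + 1) X := filter_subset _ _
  constructor
  · exact_mod_cast card_le_card (filter_subset_filter P hsub)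
  · have h : (TT (n + 1) X).filter P ⊆ (Rg n H z X).filter P ∪
        (TT (n + 1) X).filter fun p => p ∉ Rg n H z X := by
      intro p hp
      rw [mem_filter] at hp
      rw [mem_union, mem_filter, mem_filter]
      by_cases h : p ∈ Rg n H z X
      · exact Or.inl ⟨h, hp.2⟩
      · exact Or.inr ⟨hp.1, h⟩
    exact_mod_cast (card_le_card h).trans (card_union_le _ _)

/-- **the symbols are independent of the labels** -/
theorem symbols {n : ℕ} (L : Fin (n + 1) → ℕ → Prop)
    (Q : (prs (univ : Finset (Fin (n + 1))) → ZMod 2) → Prop) :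
    Ng n fun X => (((TT (n + 1) X).filter fun p => (∀ i, L i (p i)) ∧ Q (sy p)).card : ℝ) -
      ((univ.filter Q).card : ℝ) / 2 ^ np n *
        (((TT (n + 1) X).filter fun p => ∀ i, L i (p i)).card : ℝ) := by
  obtain ⟨C, hC, hbox⟩ := boxes
  set B : ℕ := 12 * (4 * (n + 1) + 2) + 1 with hB
  set θ : ℝ := ((univ.filter Q).card : ℝ) / 2 ^ np n with hθ
  have hθ0 : 0 ≤ θ := by positivity
  have h1 := (ng_nonreg n B).const_mul (1 + θ)
  have h2 := h1.add (ng_pow n 0 (4 ^ (n + 1) * 2 ^ np n))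
  refine h2.of_le ?_
  filter_upwards [eventually_ge_atTop 3, t_log.eventually_ge_atTop (C + 1),
    t_log.eventually_ge_atTop 2] with X hX hl hl2
  have hX0 : (0 : ℝ) < X := by positivity
  have hl0 : 0 < Real.log (X : ℝ) := by linarith
  have hH : 1 ≤ Hx X := by unfold Hx; omega
  have hz : 1 ≤ Zx B X := by
    unfold Zx
    rw [Nat.one_le_floor_iff]
    exact one_le_pow₀ (by linarith)
  set l := Real.log (X : ℝ) with hld
  set κ : ℝ := (l ^ (4 * (n + 1) + 2))⁻¹ with hκ
  have hκ0 : 0 ≤ κ := by positivity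
  have hκz : C ≤ κ ^ 12 * Zx B X := by
    have e1 : l ^ B - 1 ≤ (Zx B X : ℝ) := by
      unfold Zx
      have := Nat.lt_floor_add_one (l ^ B)
      linarith
    have e2 : κ ^ 12 * l ^ B = l := by
      rw [hκ, inv_pow, ← pow_mul, hB, show 12 * (4 * (n + 1) + 2) + 1 = (4 * (n + 1) + 2) * 12 + 1
        by ring, pow_succ]
      field_simp
    have e3 : κ ^ 12 ≤ 1 := by
      apply pow_le_one₀ hκ0
      rw [hκ]
      exact inv_le_one_of_one_le₀ (one_le_pow₀ (by linarith))
    have e4 := mul_le_mul_of_nonneg_left e1 (pow_nonneg hκ0 12)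
    rw [mul_sub, e2, mul_one] at e4
    linarith
  set N : ℕ := ⌊(Hx X : ℝ) * l⌋₊ + 1 with hN
  have hN1 : (Hx X : ℝ) * l < N := by
    rw [hN]
    push_cast
    exact Nat.lt_floor_add_one _
  have hN2 : (N : ℝ) ≤ 4 * l ^ 4 := by
    rw [hN]
    push_cast
    have e1 : ((⌊(Hx X : ℝ) * l⌋₊ : ℕ) : ℝ) ≤ (Hx X : ℝ) * l := Nat.floor_le (by positivity)
    have e2 : (Hx X : ℝ) ≤ l ^ 3 + 1 := by
      unfold Hx
      push_cast
      have := Nat.floor_le (show 0 ≤ Real.log (X : ℝ) ^ 3 by positivity)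
      linarith
    have e3 : (Hx X : ℝ) * l ≤ (l ^ 3 + 1) * l := mul_le_mul_of_nonneg_right e2 hl0.le
    have e4 : l ≤ l ^ 4 := by
      calc l = l ^ 1 := (pow_one l).symm
        _ ≤ l ^ 4 := pow_le_pow_right₀ (by linarith) (by norm_num)
    have e5 : 1 ≤ l ^ 4 := one_le_pow₀ (by linarith)
    have e6 : (l ^ 3 + 1) * l = l ^ 4 + l := by ring
    linarith
  have h3 := hbox n X (Zx B X) (Hx X) N κ L Q hH hz hκ0 hκz hN1
  obtain ⟨d1, d2⟩ := rg_diff n (Hx X) (Zx B X) X fun p => (∀ i, L i (p i)) ∧ Q (sy p)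
  obtain ⟨d3, d4⟩ := rg_diff n (Hx X) (Zx B X) X fun p => ∀ i, L i (p i)
  set a := (((TT (n + 1) X).filter fun p => (∀ i, L i (p i)) ∧ Q (sy p)).card : ℝ)
  set b := (((TT (n + 1) X).filter fun p => ∀ i, L i (p i)).card : ℝ)
  set a' := (((Rg n (Hx X) (Zx B X) X).filter fun p => (∀ i, L i (p i)) ∧ Q (sy p)).card : ℝ)
  set b' := (((Rg n (Hx X) (Zx B X) X).filter fun p => ∀ i, L i (p i)).card : ℝ)
  set r := (((TT (n + 1) X).filter fun p => p ∉ Rg n (Hx X) (Zx B X) X).card : ℝ)
  have e1 : (N : ℝ) ^ (n + 1) * (2 ^ np n * (κ * X)) ≤ 4 ^ (n + 1) * 2 ^ np n * (X / l ^ (0 + 2)) := by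
    have e2 : (N : ℝ) ^ (n + 1) ≤ (4 * l ^ 4) ^ (n + 1) :=
      pow_le_pow_left₀ (Nat.cast_nonneg _) hN2 _
    calc (N : ℝ) ^ (n + 1) * (2 ^ np n * (κ * X)) ≤ (4 * l ^ 4) ^ (n + 1) * (2 ^ np n * (κ * X)) :=
          mul_le_mul_of_nonneg_right e2 (by positivity)
      _ = _ := by
          rw [hκ, mul_pow, ← pow_mul]
          field_simp
          ring
  have e2 : a - θ * b = (a' - θ * b') + ((a - a') - θ * (b - b')) := by ring
  rw [e2]
  refine (abs_add_le _ _).trans ?_
  have e3 : |(a - a') - θ * (b - b')| ≤ (1 + θ) * r := by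
    have e4 : 0 ≤ θ * (b - b') := mul_nonneg hθ0 (by linarith)
    have e5 : θ * (b - b') ≤ θ * r := mul_le_mul_of_nonneg_left (by linarith) hθ0
    rw [abs_le, add_mul, one_mul]
    constructor <;> nlinarith
  linarith

end Pool.Agent.H20PT.KP
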