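import Pool.Agent.H20PT.KP.Pe
import Pool.Agent.H20PT.Q4L
import Pool.Agent.Y698.SG.Wc

/-!
# The labels of the primes for the twists of `X_0(49)`
-/

set_option autoImplicit false
set_option linter.unusedVariables false

open scoped Classical

namespace Pool.Agent.H20PT.KP

open Finset Filter Topology
open Pool.Agent.Y703.CQ (nr prs)
open Pool.Agent.Y698.SG (n4)
open Pool.Agent.H20PT.Cls (HD)
open Pool.Agent.H20PT.Q4 (nf)
open Pool.Agent.H20PT.X49 (nsq)

theorem nr_nsq : nr = nsq := by
  funext p m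
  unfold nr nsq
  congr

theorem n4_nf : n4 = nf := by
  funext p
  unfold n4 nf
  congr

theorem mk_iff {p : ℕ} (hp : p.Prime) (h4 : p % 4 = 1) : IsSquare (-7 : ZMod p) ↔ R413.SQ.mk p = 1 := by
  rw [Pool.Agent.R428.Q0.sq7_iff hp h4]
  unfold R413.SQ.mk
  constructor
  · intro h
    rw [if_pos h]
  · intro h
    by_contra hc
    rw [if_neg hc] at h
    exact absurd h (by norm_num)

/-- the labels -/
abbrev La (W : Finset ℕ) : Type := Option (ZMod 2) × (W → ZMod 2)

/-- the label of a prime: `none` if it is inert, the quartic symbol of `-7` if it is split, and the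
symbols at the primes of `W` -/
noncomputable def lab (W : Finset ℕ) (p : ℕ) : La W :=
  (if R413.SQ.mk p = 1 then some (n4 p) else none, fun u => nr u p)

/-- the uniform labels -/
abbrev Mu (W : Finset ℕ) : Type := (Bool × ZMod 2) × (W → ZMod 2)

/-- the projection -/
def pj (W : Finset ℕ) (y : Mu W) : La W := (if y.1.1 then some y.1.2 else none, y.2)

theorem card_Mu (W : Finset ℕ) : Fintype.card (Mu W) = 4 * 2 ^ W.card := by
  simp [Mu, Fintype.card_prod, ZMod.card]

theorem card_some (W : Finset ℕ) (f : ZMod 2) (v : W → ZMod 2) :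
    (univ.filter fun y => pj W y = (some f, v)).card = 1 := by
  rw [card_eq_one]
  refine ⟨((true, f), v), ?_⟩
  ext y
  obtain ⟨⟨b, g⟩, w⟩ := y
  simp only [mem_filter, mem_univ, true_and, mem_singleton, pj, Prod.mk.injEq]
  cases b <;> simp

theorem card_none (W : Finset ℕ) (v : W → ZMod 2) :
    (univ.filter fun y => pj W y = (none, v)).card = 2 := by
  have : (univ.filter fun y => pj W y = (none, v)) =
      univ.image fun f : ZMod 2 => (((false, f), v) : Mu W) := by
    ext y
    obtain ⟨⟨b, g⟩, w⟩ := y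
    simp only [mem_filter, mem_univ, true_and, mem_image, pj, Prod.mk.injEq]
    cases b <;> simp [eq_comm]
  rw [this, card_image_of_injective, card_univ, ZMod.card]
  intro a b h
  simpa using h

variable {W : Finset ℕ}

/-- the inert primes with given symbols -/
theorem inert_one (hW : ∀ p ∈ W, p.Prime ∧ p % 4 = 1) (v : W → ZMod 2) :
    HD (fun q => q % 4 = 1 ∧ ¬ IsSquare (-7 : ZMod q) ∧ q ∉ W ∧ ∀ p : W, nsq p q = v p)
      (1 / (4 * 2 ^ W.card)) := by
  have h := Pool.Agent.H20PT.X49.dens_fam hW (univ : Finset W)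
    (fun p _ _ => 1 + v p) (fun p => {(p : ℕ)}) (fun p _ => singleton_subset_iff.2 p.2)
  have hNs : ∀ (p : W) (f : ℕ → ZMod 2), Pool.Agent.H20PT.FF.Ns {(p : ℕ)} (fun _ _ => 1 + v p) f ↔
      f p = v p := by
    intro p f
    have h01 : ∀ x y : ZMod 2, (1 + y + x = 0 ↔ x ≠ y) := by decide
    have h02 : ∀ x y : ZMod 2, x = y → ∀ c : ZMod 2, (1 + y) * c + x * c = 0 → c = 0 := by decide
    unfold Pool.Agent.H20PT.FF.Ns
    constructor
    · intro h1
      by_contra hne
      have h2 := h1 (fun _ => 1) (by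
        intro i hi
        rw [mem_singleton] at hi
        rw [hi, sum_singleton, mul_one, mul_one]
        exact (h01 _ _).2 hne) p (mem_singleton_self _)
      exact one_ne_zero h2
    · intro h1 c hc i hi
      rw [mem_singleton] at hi
      rw [hi]
      have h2 := hc p (mem_singleton_self _)
      rw [sum_singleton] at h2
      exact h02 _ _ h1 _ h2
  have hnum : Pool.Agent.H20PT.X49.num W (univ : Finset W) (fun p _ _ => 1 + v p)
      (fun p => {(p : ℕ)}) = 1 := by
    unfold Pool.Agent.H20PT.X49.num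
    rw [card_eq_one]
    refine ⟨v, ?_⟩
    ext u
    simp only [mem_filter, mem_univ, true_and, mem_singleton, hNs]
    constructor
    · intro h1
      funext p
      have h2 := h1 p trivial
      unfold Pool.Agent.H20PT.FF.ex at h2
      rw [dif_pos p.2] at h2
      exact h2
    · rintro rfl p _
      unfold Pool.Agent.H20PT.FF.ex
      rw [dif_pos p.2]
  rw [hnum] at h
  unfold HD
  push_cast at h
  refine h.congr fun X => ?_
  congr 3
  ext q
  simp only [mem_filter, hNs, mem_univ, forall_const]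

/-- the density of a label -/
theorem hd_lab (hW : ∀ p ∈ W, p.Prime ∧ p % 4 = 1) (a : La W) :
    HD (fun q => q % 4 = 1 ∧ q ∉ W ∧ lab W q = a)
      ((((univ.filter fun y => pj W y = a).card : ℝ) / Fintype.card (Mu W)) / 2) := by
  obtain ⟨o, v⟩ := a
  rw [card_Mu]
  rcases o with _ | f
  · rw [card_none]
    have h := inert_one hW v
    have e : (((2 : ℕ) : ℝ) / ((4 * 2 ^ W.card : ℕ) : ℝ)) / 2 = 1 / (4 * 2 ^ W.card) := by
      push_cast
      field_simp
    rw [e]
    refine h.congr' 0 fun q _ hq => ?_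
    unfold lab
    rw [nr_nsq]
    constructor
    · rintro ⟨h1, h2, h3, h4⟩
      rw [mk_iff hq h1] at h2
      exact ⟨h1, h3, by rw [if_neg h2]; exact Prod.ext rfl (funext h4)⟩
    · rintro ⟨h1, h3, h4⟩
      rw [Prod.mk.injEq] at h4
      refine ⟨h1, ?_, h3, fun p => congrFun h4.2 p⟩
      rw [mk_iff hq h1]
      intro h5
      rw [if_pos h5] at h4
      exact absurd h4.1 (by simp)
  · rw [card_some]
    have h := Pool.Agent.H20PT.Q4.law_one hW v f
    have e : (((1 : ℕ) : ℝ) / ((4 * 2 ^ W.card : ℕ) : ℝ)) / 2 = 1 / (8 * 2 ^ W.card) := by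
      push_cast
      field_simp
      norm_num
    rw [e]
    refine h.congr' 0 fun q _ hq => ?_
    unfold lab Pool.Agent.H20PT.Q4.Sp
    rw [nr_nsq, n4_nf]
    constructor
    · rintro ⟨⟨h1, h2⟩, h3, h4, h5⟩
      rw [mk_iff hq h1] at h2
      exact ⟨h1, h3, by rw [if_pos h2, h5]; exact Prod.ext rfl (funext h4)⟩
    · rintro ⟨h1, h3, h4⟩
      rw [Prod.mk.injEq] at h4
      by_cases h5 : R413.SQ.mk q = 1
      · rw [if_pos h5, Option.some.injEq] at h4
        exact ⟨⟨h1, (mk_iff hq h1).2 h5⟩, h3, fun p => congrFun h4.2 p, h4.1⟩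
      · rw [if_neg h5] at h4
        exact absurd h4.1 (by simp)

theorem hd_half : HD (fun q => q % 4 = 1) (1 / 2) := by
  have h := HD.sum (univ : Finset (La ∅)) (fun a q => q % 4 = 1 ∧ q ∉ (∅ : Finset ℕ) ∧ lab ∅ q = a)
    _ (fun a _ => hd_lab (W := ∅) (fun p hp => absurd hp (notMem_empty p)) a) (by
      intro a _ b _ hab q h1 h2
      exact hab (h1.2.2.symm.trans h2.2.2))
  have e : ∑ a : La ∅, (((univ.filter fun y => pj ∅ y = a).card : ℝ) /
      Fintype.card (Mu ∅)) / 2 = 1 / 2 := by
    rw [← sum_div, ← sum_div]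
    congr 1
    rw [div_eq_one_iff_eq (by rw [card_Mu]; positivity)]
    rw [← Finset.card_univ, card_eq_sum_card_fiberwise (f := pj ∅) (t := univ)
      (fun _ _ => mem_coe.2 (mem_univ _))]
    push_cast
    rfl
  rw [e] at h
  refine h.congr' 0 fun q _ _ => ?_
  constructor
  · rintro ⟨a, -, h1, -⟩
    exact h1
  · intro h1
    exact ⟨lab ∅ q, mem_univ _, h1, notMem_empty _, rfl⟩

theorem dn_of_hd {L : ℕ → Prop} {δ : ℝ} (h : HD (fun q => q % 4 = 1 ∧ L q) (δ / 2)) : Dn L δ := by
  have h2 := h.div hd_half (by norm_num)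
  have e : δ / 2 / (1 / 2) = δ := by ring
  rw [e] at h2
  unfold Dn
  refine h2.congr' ?_
  filter_upwards [eventually_ge_atTop 2] with X hX
  have hne : (0 : ℝ) < (((Icc 1 X).filter fun q : ℕ => q.Prime).card : ℝ) := by
    have : 0 < ((Icc 1 X).filter fun q : ℕ => q.Prime).card :=
      card_pos.2 ⟨2, mem_filter.2 ⟨mem_Icc.2 ⟨by norm_num, hX⟩, Nat.prime_two⟩⟩
    exact_mod_cast this
  have e1 : (PP X).filter L = (Icc 1 X).filter fun q : ℕ => q.Prime ∧ (q % 4 = 1 ∧ L q) := by
    ext q
    unfold PP Pr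
    simp only [mem_filter]
    tauto
  have e2 : PP X = (Icc 1 X).filter fun q : ℕ => q.Prime ∧ q % 4 = 1 := by
    ext q
    unfold PP Pr
    simp only [mem_filter]
  rw [e1, e2]
  rw [Pi.div_apply, div_div_div_cancel_right₀]
  · congr!
  · convert hne.ne'

/-- **the density of the labels among the primes `≡ 1` modulo `4`** -/
theorem dn_lab (hW : ∀ p ∈ W, p.Prime ∧ p % 4 = 1) (a : La W) :
    Dn (fun q => lab W q = a)
      (((univ.filter fun y => pj W y = a).card : ℝ) / Fintype.card (Mu W)) := by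
  apply dn_of_hd
  refine (hd_lab hW a).congr' (W.sup id) fun q hq _ => ?_
  have : q ∉ W := fun h => absurd (le_sup (f := id) h) (not_le.2 hq)
  tauto

end Pool.Agent.H20PT.KP
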