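import Pool.Agent.H20PT.KP.Lim

/-!
# The law for the numbers with `k` prime factors, and for `k → ∞`
-/

set_option autoImplicit false
set_option linter.unusedVariables false

open scoped Classical

namespace Pool.Agent.H20PT.KP

open Function Finset Filter Topology
open Pool.Agent.Y759.CX (fr fr_equiv fr_comp fr_prod fr_nonneg fr_le_one fr_mono fr_exists fr_not)
open Pool.Agent.Y703.CQ (nr prs ext c2)
open Pool.Agent.Y698.SG (n4)
open Pool.Agent.R413.SQ (Gd)
open Pool.Agent.Y219.CQ (F sp)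

theorem fr_eq {G : Type} [Fintype G] (P : G → Prop) [DecidablePred P] :
    fr P = ((univ.filter P).card : ℝ) / Fintype.card G := by
  unfold fr
  rw [Nat.card_eq_fintype_card, Fintype.card_subtype, Nat.card_eq_fintype_card]

theorem lawF {n : ℕ} {Λ M : Type} [Fintype Λ] [Fintype M] [Nonempty M] (lab : ℕ → Λ) (π : M → Λ)
    (h : ∀ a, Dn (fun p => lab p = a) (((univ.filter fun y => π y = a).card : ℝ) / Fintype.card M))
    (Q : (Fin (n + 1) → Λ) → (prs (univ : Finset (Fin (n + 1))) → ZMod 2) → Prop) :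
    Tendsto (fun X : ℕ => (((TT (n + 1) X).filter fun p => Q (fun i => lab (p i)) (sy p)).card : ℝ) /
      ((TT (n + 1) X).card : ℝ)) atTop
      (𝓝 (fr (fun x : (Fin (n + 1) → M) × (prs (univ : Finset (Fin (n + 1))) → ZMod 2) =>
        Q (fun i => π (x.1 i)) x.2))) := by
  have h1 := lawU (n := n) lab π h Q
  have h2 : fr (fun x : (Fin (n + 1) → M) × (prs (univ : Finset (Fin (n + 1))) → ZMod 2) =>
        Q (fun i => π (x.1 i)) x.2) = (((univ.filter fun x : (Fin (n + 1) → M) × (prs (univ : Finset (Fin (n + 1))) → ZMod 2) =>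
        Q (fun i => π (x.1 i)) x.2).card : ℝ) /
        (Fintype.card M ^ (n + 1) * 2 ^ np n)) := by
    rw [fr_eq]
    congr 1
    rw [Fintype.card_prod, Fintype.card_fun, Fintype.card_fin, Fintype.card_fun, ZMod.card,
      Fintype.card_coe]
    unfold np
    push_cast
    rfl
  rw [h2]
  exact h1

theorem lawW {n : ℕ} {W : Finset ℕ} (hW : ∀ u ∈ W, u.Prime ∧ u % 4 = 1)
    (Φ : (Fin (n + 1) → La W) → (prs (univ : Finset (Fin (n + 1))) → ZMod 2) → Prop) :
    Tendsto (fun X : ℕ => (((TT (n + 1) X).filter fun p => Φ (fun i => lab W (p i)) (sy p)).card : ℝ) /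
      ((TT (n + 1) X).card : ℝ)) atTop
      (𝓝 (fr (fun x : Om W (n + 1) => Φ (pr1 W x.1) x.2))) := 
  lawF (lab W) (pj W) (fun a => by convert dn_lab hW a) Φ

theorem fr_split {G : Type} [Fintype G] (P Q : G → Prop) :
    fr (fun g => P g ∧ ¬ Q g) = fr P - fr (fun g => P g ∧ Q g) := by
  rw [fr_eq, fr_eq, fr_eq, ← sub_div]
  congr 1
  have h := card_filter_add_card_filter_not (s := univ.filter P) Q
  rw [filter_filter, filter_filter] at h
  have h' : ((univ.filter P).card : ℝ) = ((univ.filter fun g => P g ∧ Q g).card : ℝ) +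
      ((univ.filter fun g => P g ∧ ¬ Q g).card : ℝ) := by exact_mod_cast h.symm
  rw [h']
  ring

/-- all patterns -/
theorem lim_PQ {W : Finset ℕ} (hW : ∀ u ∈ W, u.Prime ∧ u % 4 = 1) (Q P : Finset (Finset ℕ))
    (hP : ∀ V ∈ P, V ⊆ W) (hQ : ∀ V ∈ Q, V ⊆ W) (hd : Disjoint P Q) :
    Tendsto (fun k : ℕ => fr (fun x : Om W k => (∀ V ∈ P, GM W V (pr1 W x.1) x.2) ∧
      ∀ V ∈ Q, ¬ GM W V (pr1 W x.1) x.2)) atTop (𝓝 (c2 ^ P.card * (1 - c2) ^ Q.card)) := by
  induction Q using Finset.induction_on generalizing P with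
  | empty =>
    have h := lim_M hW (fun i : Fin P.card => ((P.equivFin.symm i : P) : Finset ℕ))
      (fun i => hP _ (P.equivFin.symm i).2) (fun i j hij => P.equivFin.symm.injective (Subtype.ext hij))
    rw [card_empty, pow_zero, mul_one]
    refine h.congr fun k => ?_
    congr 1
    funext x
    refine propext ⟨fun h1 => ⟨fun V hV => ?_, fun V hV => absurd hV (notMem_empty V)⟩,
      fun h1 i => h1.1 _ (P.equivFin.symm i).2⟩
    have h2 := h1 (P.equivFin ⟨V, hV⟩)
    rw [Equiv.symm_apply_apply] at h2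
    exact h2
  | insert q Q hq ih =>
    rw [disjoint_insert_right] at hd
    have hqW : q ⊆ W := hQ q (mem_insert_self _ _)
    have hQ' : ∀ V ∈ Q, V ⊆ W := fun V hV => hQ V (mem_insert_of_mem hV)
    have h1 := ih P hP hQ' hd.2
    have h2 := ih (insert q P) (fun V hV => by
      rcases mem_insert.1 hV with rfl | hV
      · exact hqW
      · exact hP V hV) hQ' (by
      rw [disjoint_insert_left]
      exact ⟨hq, hd.2⟩)
    have h3 := h1.sub h2
    have e : c2 ^ P.card * (1 - c2) ^ Q.card - c2 ^ (insert q P).card * (1 - c2) ^ Q.card =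
        c2 ^ P.card * (1 - c2) ^ (insert q Q).card := by
      rw [card_insert_of_notMem hd.1, card_insert_of_notMem hq]
      ring
    rw [e] at h3
    refine h3.congr fun k => ?_
    have h4 := fr_split (fun x : Om W k => (∀ V ∈ P, GM W V (pr1 W x.1) x.2) ∧
      ∀ V ∈ Q, ¬ GM W V (pr1 W x.1) x.2) (fun x => GM W q (pr1 W x.1) x.2)
    have e1 : (fun x : Om W k => (∀ V ∈ P, GM W V (pr1 W x.1) x.2) ∧
        ∀ V ∈ insert q Q, ¬ GM W V (pr1 W x.1) x.2) = fun x : Om W k =>
        ((∀ V ∈ P, GM W V (pr1 W x.1) x.2) ∧ ∀ V ∈ Q, ¬ GM W V (pr1 W x.1) x.2) ∧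
          ¬ GM W q (pr1 W x.1) x.2 := by
      funext x
      rw [forall_mem_insert]
      exact propext (by tauto)
    have e2 : (fun x : Om W k => (∀ V ∈ insert q P, GM W V (pr1 W x.1) x.2) ∧
        ∀ V ∈ Q, ¬ GM W V (pr1 W x.1) x.2) = fun x : Om W k =>
        ((∀ V ∈ P, GM W V (pr1 W x.1) x.2) ∧ ∀ V ∈ Q, ¬ GM W V (pr1 W x.1) x.2) ∧
          GM W q (pr1 W x.1) x.2 := by
      funext x
      rw [forall_mem_insert]
      exact propext (by tauto)
    rw [e1, e2, h4]

/-- **The law for the numbers with `n + 1` prime factors.** -/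
theorem lawS {n : ℕ} {W : Finset ℕ} (hW : ∀ u ∈ W, u.Prime ∧ u % 4 = 1)
    (Φ : (Fin (n + 1) → La W) → (prs (univ : Finset (Fin (n + 1))) → ZMod 2) → Prop)
    (P : Finset ℕ → Prop) (B : ℕ) (h : ∀ p : Fin (n + 1) → ℕ, Injective p → (∀ i, Pr (p i)) →
      (∀ i, B < p i) → (P (univ.image p) ↔ Φ (fun i => lab W (p i)) (sy p))) :
    Tendsto (fun X : ℕ => (((Icc 1 X).filter fun D => Ak (n + 1) D ∧ P D.primeFactors).card : ℝ) /
      (((Icc 1 X).filter fun D => Ak (n + 1) D).card : ℝ)) atTop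
      (𝓝 (fr (fun x : Om W (n + 1) => Φ (pr1 W x.1) x.2))) := by
  have h1 := lawW (n := n) hW Φ
  -- the exceptional tuples
  have h2 : Tendsto (fun X : ℕ => (((TT (n + 1) X).filter fun p => ∃ j, p j ≤ B).card : ℝ) /
      ((TT (n + 1) X).card : ℝ)) atTop (𝓝 0) := by
    apply Ng.ratio
    have h3 := small n (fun _ => B) 1 (by
      filter_upwards [t_log.eventually_ge_atTop (B : ℝ)] with X hX
      rw [pow_one]
      exact hX)
    refine Ng.congr h3 fun X => ?_
    rw [zero_mul, sub_zero]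
  have h3 : Tendsto (fun X : ℕ => (((TT (n + 1) X).filter fun p => P (univ.image p)).card : ℝ) /
      ((TT (n + 1) X).card : ℝ)) atTop (𝓝 (fr (fun x : Om W (n + 1) => Φ (pr1 W x.1) x.2))) := by
    have h4 : Tendsto (fun X : ℕ => (((TT (n + 1) X).filter fun p => P (univ.image p)).card : ℝ) /
      ((TT (n + 1) X).card : ℝ) - (((TT (n + 1) X).filter fun p => Φ (fun i => lab W (p i))
        (sy p)).card : ℝ) / ((TT (n + 1) X).card : ℝ)) atTop (𝓝 0) := by
      refine squeeze_zero_norm (fun X => ?_) h2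
      rw [← sub_div, norm_div, Real.norm_eq_abs, Real.norm_of_nonneg (Nat.cast_nonneg _)]
      refine div_le_div_of_nonneg_right ?_ (Nat.cast_nonneg _)
      have hsub : ∀ p ∈ TT (n + 1) X, (¬ ∃ j, p j ≤ B) →
          (P (univ.image p) ↔ Φ (fun i => lab W (p i)) (sy p)) := by
        intro p hp hB
        push Not at hB
        rw [mem_TT] at hp
        exact h p hp.2.1 hp.1 hB
      have a1 : (TT (n + 1) X).filter (fun p => P (univ.image p)) ⊆
          (TT (n + 1) X).filter (fun p => Φ (fun i => lab W (p i)) (sy p)) ∪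
            (TT (n + 1) X).filter fun p => ∃ j, p j ≤ B := by
        intro p hp
        rw [mem_filter] at hp
        rw [mem_union, mem_filter, mem_filter]
        by_cases hB : ∃ j, p j ≤ B
        · exact Or.inr ⟨hp.1, hB⟩
        · exact Or.inl ⟨hp.1, (hsub p hp.1 hB).1 hp.2⟩
      have a2 : (TT (n + 1) X).filter (fun p => Φ (fun i => lab W (p i)) (sy p)) ⊆
          (TT (n + 1) X).filter (fun p => P (univ.image p)) ∪
            (TT (n + 1) X).filter fun p => ∃ j, p j ≤ B := by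
        intro p hp
        rw [mem_filter] at hp
        rw [mem_union, mem_filter, mem_filter]
        by_cases hB : ∃ j, p j ≤ B
        · exact Or.inr ⟨hp.1, hB⟩
        · exact Or.inl ⟨hp.1, (hsub p hp.1 hB).2 hp.2⟩
      have b1 := (card_le_card a1).trans (card_union_le _ _)
      have b2 := (card_le_card a2).trans (card_union_le _ _)
      have c1 : (((TT (n + 1) X).filter fun p => P (univ.image p)).card : ℝ) ≤
          (((TT (n + 1) X).filter fun p => Φ (fun i => lab W (p i)) (sy p)).card : ℝ) +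
            (((TT (n + 1) X).filter fun p => ∃ j, p j ≤ B).card : ℝ) := by exact_mod_cast b1
      have c2 : (((TT (n + 1) X).filter fun p => Φ (fun i => lab W (p i)) (sy p)).card : ℝ) ≤
          (((TT (n + 1) X).filter fun p => P (univ.image p)).card : ℝ) +
            (((TT (n + 1) X).filter fun p => ∃ j, p j ≤ B).card : ℝ) := by exact_mod_cast b2
      rw [abs_le]
      constructor <;> linarith
    have h5 := h4.add h1
    rw [zero_add] at h5
    refine h5.congr fun X => ?_
    ring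
  refine h3.congr fun X => ?_
  exact ratio_eq (n + 1) X P

/-- the product for the finite dimensions tends to `c2` from above -/
theorem sp_bd (j : ℕ) : c2 < sp j ∧ sp j ≤ c2 + (1 / 2) ^ j := by
  have hc := Pool.Agent.Y948.CQ.t_C2.1
  obtain ⟨q, hq⟩ : ∃ q : ℕ → ℝ, q = fun n => ∏ i ∈ range n, (1 - (1 / 2 : ℝ) ^ (2 * i + 1)) := ⟨_, rfl⟩
  have hf : ∀ i : ℕ, 0 < 1 - (1 / 2 : ℝ) ^ (2 * i + 1) ∧ 1 - (1 / 2 : ℝ) ^ (2 * i + 1) < 1 := by
    intro i
    have h1 : (1 / 2 : ℝ) ^ (2 * i + 1) ≤ (1 / 2) ^ 1 :=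
      pow_le_pow_of_le_one (by norm_num) (by norm_num) (by omega)
    have h2 : (0 : ℝ) < (1 / 2 : ℝ) ^ (2 * i + 1) := by positivity
    constructor <;> linarith
  have hpos : ∀ n, 0 < q n := by
    intro n
    rw [hq]
    exact prod_pos fun i _ => (hf i).1
  have hlt : ∀ n, q (n + 1) < q n := by
    intro n
    have h1 : q (n + 1) = q n * (1 - (1 / 2 : ℝ) ^ (2 * n + 1)) := by
      rw [hq]
      exact prod_range_succ _ _
    rw [h1]
    have := mul_lt_mul_of_pos_left (hf n).2 (hpos n)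
    linarith
  have hanti : Antitone q := antitone_nat_of_succ_le fun n => (hlt n).le
  have hlim : Tendsto q atTop (𝓝 c2) := by
    have h1 : Tendsto (fun n : ℕ => (1 / 4 : ℝ) ^ n) atTop (𝓝 0) :=
      tendsto_pow_atTop_nhds_zero_of_lt_one (by norm_num) (by norm_num)
    have h2 : Tendsto (fun n => q n - c2) atTop (𝓝 0) :=
      squeeze_zero_norm (fun n => by
        rw [Real.norm_eq_abs, hq]
        exact hc n) h1
    have h3 := h2.add_const c2
    simpa using h3
  have hge : ∀ n, c2 ≤ q n := fun n => hanti.le_of_tendsto hlim n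
  have hsp : sp j = q ((j + 1) / 2) := by
    rw [hq]
    rfl
  rw [hsp]
  refine ⟨lt_of_le_of_lt (hge _) (hlt _), ?_⟩
  have h1 := (abs_le.1 (hc ((j + 1) / 2))).2
  have h2 : q ((j + 1) / 2) = ∏ i ∈ range ((j + 1) / 2), (1 - (1 / 2 : ℝ) ^ (2 * i + 1)) := by rw [hq]
  rw [← h2] at h1
  have h3 : (1 / 4 : ℝ) ^ ((j + 1) / 2) ≤ (1 / 2) ^ j := by
    have e : (1 / 4 : ℝ) = (1 / 2) ^ 2 := by norm_num
    rw [e, ← pow_mul]
    exact pow_le_pow_of_le_one (by norm_num) (by norm_num) (by omega)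
  linarith

/-- the proportions tend to `c2` from above -/
theorem Pk_bd (k : ℕ) : c2 < Pk k ∧ Pk k ≤ c2 + (3 / 4) ^ k := by
  have h2k : ∑ j ∈ range (k + 1), (k.choose j : ℝ) = 2 ^ k := by
    have := Nat.sum_range_choose k
    exact_mod_cast this
  have h32 : ∑ j ∈ range (k + 1), (k.choose j : ℝ) * (1 / 2) ^ j = (3 / 2) ^ k := by
    have h1 := (add_pow (1 / 2 : ℝ) 1 k).symm
    rw [show (1 / 2 : ℝ) + 1 = 3 / 2 by norm_num] at h1
    rw [← h1]
    refine sum_congr rfl fun j _ => ?_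
    rw [one_pow]
    ring
  unfold Pk
  constructor
  · rw [lt_div_iff₀ (by positivity), ← h2k, mul_sum]
    refine sum_lt_sum (fun j _ => ?_) ⟨0, mem_range.2 (by omega), ?_⟩
    · rw [mul_comm]
      exact mul_le_mul_of_nonneg_left (sp_bd j).1.le (Nat.cast_nonneg _)
    · rw [Nat.choose_zero_right]
      push_cast
      have := (sp_bd 0).1
      linarith
  · rw [div_le_iff₀ (by positivity)]
    have h1 : ∑ j ∈ range (k + 1), (k.choose j : ℝ) * sp j ≤
        ∑ j ∈ range (k + 1), (k.choose j : ℝ) * (c2 + (1 / 2) ^ j) :=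
      sum_le_sum fun j _ => mul_le_mul_of_nonneg_left (sp_bd j).2 (Nat.cast_nonneg _)
    refine h1.trans (le_of_eq ?_)
    simp only [mul_add, sum_add_distrib]
    rw [← sum_mul, h2k, h32, add_mul, ← mul_pow]
    norm_num
    ring

/-- the proportion for the numbers themselves -/
theorem fr_gm (k : ℕ) : fr (fun x : Om ∅ k => GM ∅ ∅ (pr1 ∅ x.1) x.2) = Pk k := by
  rw [← fr_all k]
  let e : Om ∅ k ≃ (Fin k → Bool) × ((Fin k → F) × (prs (univ : Finset (Fin k)) → F)) :=
    { toFun := fun x => (fun i => (x.1 i).1.1, (fun i => (x.1 i).1.2, x.2))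
      invFun := fun y => (fun i => ((y.1 i, y.2.1 i), fun u => 0), y.2.2)
      left_inv := fun x => by
        refine Prod.ext (funext fun i => Prod.ext rfl (funext fun u => ?_)) rfl
        exact absurd u.2 (notMem_empty _)
      right_inv := fun y => rfl }
  rw [← fr_equiv e]
  congr 1
  funext x
  refine propext ?_
  rw [gm_empty]
  have hJ : Js (pr1 ∅ x.1) = univ.filter fun i => (e x).1 i = true := by
    ext i
    rw [mem_Js, mem_filter]
    simp [e]
  rw [hJ]
  unfold NS
  refine forall_congr' fun y => imp_congr Iff.rfl (imp_congr ?_ Iff.rfl)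
  refine forall₂_congr fun i hi => ?_
  beta_reduce
  have h1 : (pr1 ∅ x.1 i).1.getD 0 = (e x).2.1 i := by
    have h2 : (x.1 i).1.1 = true := (mem_filter.1 hi).2
    unfold pr1 pj
    rw [if_pos h2]
    rfl
  rw [h1]
  exact Iff.rfl

end Pool.Agent.H20PT.KP
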