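import Pool.Agent.H20PT.KP.Lab
import Pool.Agent.R413.SQ.BIL
import Pool.Agent.R413.SQ.CNT
import Pool.Agent.R413.SQ.KEY
import Pool.Agent.Y356.CQ.EQ

/-!
# The symbols between the entries of a tuple are equidistributed
-/

set_option autoImplicit false
set_option linter.unusedVariables false

open scoped Classical

namespace Pool.Agent.H20PT.KP

open Finset Filter Topology
open Pool.Agent.Y703.CX (sm la jj XX)
open Pool.Agent.Y703.CQ (nr sg prs HB S_EQ)
open Pool.Agent.R413.SQ (SS Cl of_pr1)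
open Pool.Agent.R413.SQ.KEY (le_XX root12)

variable {n : ℕ}

/-- the primes of a block -/
noncomputable def Cb (H z : ℕ) (L : Fin (n + 1) → ℕ → Prop) (i : Fin (n + 1)) (j : ℕ) : Finset ℕ :=
  (Icc 1 (XX H j)).filter fun p => Pr p ∧ z < p ∧ jj H p = j ∧ L i p

/-- the regular tuples -/
noncomputable def Rg (n H z X : ℕ) : Finset (Fin (n + 1) → ℕ) :=
  (TT (n + 1) X).filter fun p => (∀ i, z < p i) ∧ Function.Injective (fun i => jj H (p i)) ∧
    ∏ i, XX H (jj H (p i)) ≤ X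

/-- the symbols of a tuple -/
noncomputable def sy (p : Fin (n + 1) → ℕ) : prs (univ : Finset (Fin (n + 1))) → ZMod 2 :=
  fun e => nr (p e.1.1) (p e.1.2)

theorem mem_Cb {H z : ℕ} (hH : 1 ≤ H) {L : Fin (n + 1) → ℕ → Prop} {i : Fin (n + 1)} {j p : ℕ} :
    p ∈ Cb H z L i j ↔ Pr p ∧ z < p ∧ jj H p = j ∧ L i p := by
  unfold Cb
  rw [mem_filter, mem_Icc]
  constructor
  · exact fun h => h.2
  · intro h
    refine ⟨⟨h.1.1.one_le, ?_⟩, h⟩
    rw [← h.2.2.1]
    exact le_XX hH h.1.1.one_le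

theorem box_iff {H z X : ℕ} (hH : 1 ≤ H) (L : Fin (n + 1) → ℕ → Prop) {j : Fin (n + 1) → ℕ}
    (hj : Function.Injective j) (hX : ∏ i, XX H (j i) ≤ X) (p : Fin (n + 1) → ℕ) :
    (p ∈ Rg n H z X ∧ (∀ i, L i (p i)) ∧ (fun i => jj H (p i)) = j) ↔
      ∀ i, p i ∈ Cb H z L i (j i) := by
  unfold Rg
  rw [mem_filter, mem_TT]
  simp only [mem_Cb hH]
  constructor
  · rintro ⟨⟨⟨h1, h2, h3⟩, h4, h5, h6⟩, h7, h8⟩ i
    exact ⟨h1 i, h4 i, congrFun h8 i, h7 i⟩
  · intro h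
    have h8 : (fun i => jj H (p i)) = j := funext fun i => (h i).2.2.1
    refine ⟨⟨⟨fun i => (h i).1, fun a b hab => hj ?_, ?_⟩, fun i => (h i).2.1, ?_, ?_⟩,
      fun i => (h i).2.2.2, h8⟩
    · rw [← (h a).2.2.1, ← (h b).2.2.1, hab]
    · refine (prod_le_prod' fun i _ => ?_).trans hX
      rw [← (h i).2.2.1]
      exact le_XX hH (h i).1.1.one_le
    · rw [h8]
      exact hj
    · simp only [(h _).2.2.1]
      exact hX

theorem hb {C₁ : ℝ} (h1 : ∀ (P Q : Finset ℕ) (A B z : ℕ) (c d : ℕ → ℂ),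
      (∀ p ∈ P, p.Prime ∧ p % 4 = 1 ∧ p ≤ A) → (∀ q ∈ Q, q.Prime ∧ q ≠ 2 ∧ q ≤ B) →
      Disjoint P Q → 1 ≤ z → z ≤ A → z ≤ B →
      (∀ p, ‖c p‖ ≤ 1) → (∀ q, ‖d q‖ ≤ 1) →
      ‖∑ p ∈ P, ∑ q ∈ Q, c p * d q * sg (nr p q)‖ ^ 12 * z ≤
        C₁ * ((A : ℝ) * B) ^ 12)
    {z H : ℕ} (hH : 1 ≤ H) (hz : 1 ≤ z) {κ : ℝ} (hκ : 0 ≤ κ) (hκ1 : C₁ ≤ κ ^ 12 * z)
    (L : Fin (n + 1) → ℕ → Prop) {j : Fin (n + 1) → ℕ} (hj : Function.Injective j) :
    HB univ (fun i => Cb H z L i (j i)) (fun i => XX H (j i)) κ := by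
  intro i l hil _ c d hc hd
  show ‖∑ x ∈ Cb H z L i (j i), ∑ y ∈ Cb H z L l (j l), c x * d y * sg (nr x y)‖ ≤
    κ * ((XX H (j i) : ℝ) * (XX H (j l) : ℝ))
  have hz0 : (0 : ℝ) < z := by exact_mod_cast hz
  have hk0 : (0 : ℝ) ≤ κ * ((XX H (j i) : ℝ) * (XX H (j l) : ℝ)) := by positivity
  rcases (Cb H z L i (j i)).eq_empty_or_nonempty with he | ⟨p₀, hp₀⟩
  · rw [he, sum_empty, norm_zero]
    exact hk0
  rcases (Cb H z L l (j l)).eq_empty_or_nonempty with he | ⟨q₀, hq₀⟩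
  · rw [he]
    simp only [sum_empty, sum_const_zero, norm_zero]
    exact hk0
  have hle : ∀ (i : Fin (n + 1)) (p : ℕ), p ∈ Cb H z L i (j i) → p ≤ XX H (j i) := by
    intro i p hp
    unfold Cb at hp
    exact (mem_Icc.1 (mem_filter.1 hp).1).2
  have hzi : z ≤ XX H (j i) := ((mem_Cb hH).1 hp₀).2.1.le.trans (hle i _ hp₀)
  have hzl : z ≤ XX H (j l) := ((mem_Cb hH).1 hq₀).2.1.le.trans (hle l _ hq₀)
  have h3 := h1 (Cb H z L i (j i)) (Cb H z L l (j l)) (XX H (j i)) (XX H (j l)) z c d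
    (fun p hp => ⟨((mem_Cb hH).1 hp).1.1, ((mem_Cb hH).1 hp).1.2, hle i p hp⟩)
    (fun p hp => ⟨((mem_Cb hH).1 hp).1.1, by
      have := ((mem_Cb hH).1 hp).1.five
      omega, hle l p hp⟩)
    (by
      rw [disjoint_left]
      intro p hp hp'
      have h5 := ((mem_Cb hH).1 hp).2.2.1
      have h6 := ((mem_Cb hH).1 hp').2.2.1
      exact hil (hj (h5.symm.trans h6)))
    hz hzi hzl hc hd
  exact root12 (norm_nonneg _) hκ (Nat.cast_nonneg _) (Nat.cast_nonneg _) hz0 h3 hκ1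

/-- the number of the pairs -/
noncomputable def np (n : ℕ) : ℕ := (prs (univ : Finset (Fin (n + 1)))).card

/-- the sum over the boxes -/
theorem boxes : ∃ C : ℝ, 1 ≤ C ∧ ∀ (n X z H N : ℕ) (κ : ℝ) (L : Fin (n + 1) → ℕ → Prop)
    (Q : (prs (univ : Finset (Fin (n + 1))) → ZMod 2) → Prop), 1 ≤ H → 1 ≤ z → 0 ≤ κ →
    C ≤ κ ^ 12 * z → (H : ℝ) * Real.log X < N →
    |(((Rg n H z X).filter fun p => (∀ i, L i (p i)) ∧ Q (sy p)).card : ℝ) -
      ((univ.filter Q).card : ℝ) / 2 ^ np n *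
        (((Rg n H z X).filter fun p => ∀ i, L i (p i)).card : ℝ)| ≤
    (N : ℝ) ^ (n + 1) * (2 ^ np n * (κ * X)) := by
  obtain ⟨C, hC, h1⟩ := Pool.Agent.R413.SQ.BIL.t_BIL
  refine ⟨C, hC, fun n X z H N κ L Q hH hz hκ hκz hN => ?_⟩
  set A := (Rg n H z X).filter fun p => ∀ i, L i (p i) with hA
  set f : (Fin (n + 1) → ℕ) → (Fin (n + 1) → ℕ) := fun p i => jj H (p i) with hf
  set T := A.image f with hT
  have hfib : ∀ P : (Fin (n + 1) → ℕ) → Prop, ((A.filter P).card : ℝ) =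
      ∑ j ∈ T, (((A.filter P).filter fun p => f p = j).card : ℝ) := by
    intro P
    rw [card_eq_sum_card_fiberwise (f := f) (t := T)]
    · push_cast
      rfl
    · intro p hp
      exact mem_coe.2 (mem_image_of_mem f (mem_filter.1 (mem_coe.1 hp)).1)
  have hTj : ∀ j ∈ T, Function.Injective j ∧ ∏ i, XX H (j i) ≤ X := by
    intro j hj
    rw [hT, mem_image] at hj
    obtain ⟨p, hp, rfl⟩ := hj
    rw [hA, mem_filter] at hp
    have := hp.1
    unfold Rg at this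
    rw [mem_filter] at this
    exact this.2.2
  have hbox : ∀ j ∈ T, ∀ P : (Fin (n + 1) → ℕ) → Prop,
      (A.filter P).filter (fun p => f p = j) =
        (Fintype.piFinset fun i => Cb H z L i (j i)).filter P := by
    intro j hj P
    obtain ⟨h2, h3⟩ := hTj j hj
    ext p
    have h4 := box_iff (z := z) hH L h2 h3 p
    rw [mem_filter (p := P) (s := Fintype.piFinset _), Fintype.mem_piFinset, ← h4, hA]
    simp only [mem_filter]
    tauto
  have hcard : T.card ≤ N ^ (n + 1) := by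
    have hsub : T ⊆ Fintype.piFinset fun _ => range N := by
      intro j hj
      rw [hT, mem_image] at hj
      obtain ⟨p, hp, rfl⟩ := hj
      rw [Fintype.mem_piFinset]
      intro i
      rw [mem_range, hf]
      rw [hA, mem_filter] at hp
      have h2 := hp.1
      unfold Rg at h2
      rw [mem_filter] at h2
      have h3 := h2.1
      unfold TT at h3
      rw [mem_filter, Fintype.mem_piFinset] at h3
      obtain ⟨h4, h5⟩ := mem_PP.1 (h3.1 i)
      have h6 : ((jj H (p i) : ℕ) : ℝ) < N := by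
        have hp1 : (1 : ℝ) ≤ p i := by exact_mod_cast h4.1.one_le
        refine lt_of_le_of_lt (Nat.floor_le (mul_nonneg (Nat.cast_nonneg _)
          (Real.log_nonneg hp1))) ?_
        refine lt_of_le_of_lt ?_ hN
        refine mul_le_mul_of_nonneg_left ?_ (Nat.cast_nonneg _)
        exact Real.log_le_log (by linarith) (by exact_mod_cast h5)
      exact_mod_cast h6
    refine (card_le_card hsub).trans ?_
    rw [Fintype.card_piFinset, prod_const, card_univ, Fintype.card_fin, card_range]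
  obtain ⟨Tr, hTr⟩ : ∃ Tr : (Fin (n + 1) → ℕ) → Prop, ∀ p, Tr p := ⟨fun _ => True, fun _ => trivial⟩
  have hall : ∀ j ∈ T, |((((A.filter fun p => Q (sy p)).filter fun p => f p = j).card : ℕ) : ℝ) -
      ((univ.filter Q).card : ℝ) / 2 ^ np n *
        ((((A.filter Tr).filter fun p => f p = j).card : ℕ) : ℝ)| ≤
      2 ^ np n * (κ * X) := by
    intro j hj
    obtain ⟨h2, h3⟩ := hTj j hj
    rw [hbox j hj, hbox j hj]
    have h4 := Pool.Agent.Y356.CQ.t_EQ (Fin (n + 1)) univ (fun i => Cb H z L i (j i))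
      (fun i => XX H (j i)) κ hκ (fun i => by
        refine (card_filter_le _ _).trans ?_
        rw [Nat.card_Icc]
        omega) (hb h1 hH hz hκ hκz L h2) Q
    have h5 : (((Fintype.piFinset fun i => Cb H z L i (j i)).filter Tr).card : ℝ) =
        ∏ i, ((Cb H z L i (j i)).card : ℝ) := by
      rw [filter_true_of_mem fun p _ => hTr p, Fintype.card_piFinset]
      push_cast
      rfl
    rw [h5]
    have h6 : ∏ i, ((XX H (j i) : ℕ) : ℝ) ≤ X := by exact_mod_cast h3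
    refine le_trans ?_ (h4.trans ?_)
    · apply le_of_eq
      unfold np sy
      congr!
    · unfold np
      gcongr
  have e1 : ((Rg n H z X).filter fun p => (∀ i, L i (p i)) ∧ Q (sy p)).card =
      (A.filter fun p => Q (sy p)).card := by
    rw [hA, filter_filter]
  have e2 : A.card = (A.filter Tr).card := by rw [filter_true_of_mem fun p _ => hTr p]
  rw [e1, e2, hfib, hfib, mul_sum, ← sum_sub_distrib]
  refine (abs_sum_le_sum_abs _ _).trans ((sum_le_sum hall).trans ?_)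
  rw [sum_const, nsmul_eq_mul]
  refine mul_le_mul_of_nonneg_right ?_ (by positivity)
  exact_mod_cast hcard

end Pool.Agent.H20PT.KP
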