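import Mathlib
import Pool.Agent.Y405.CQ.MER
import Pool.Agent.Y302.CQ.CHE

/-!
# The number of the tuples of `k` different primes `≡ 1` modulo `4` with product at most `X`
-/

set_option autoImplicit false
set_option linter.unusedVariables false

open scoped Classical

namespace Pool.Agent.H20PT.KP

open Finset Filter Topology Asymptotics

/-- the primes of the class -/
def Pr (p : ℕ) : Prop := p.Prime ∧ p % 4 = 1

/-- the primes of the class up to `X` -/
noncomputable def PP (X : ℕ) : Finset ℕ := (Icc 1 X).filter Pr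

/-- the tuples of `k` different primes with product at most `X` -/
noncomputable def TT (k X : ℕ) : Finset (Fin k → ℕ) :=
  (Fintype.piFinset fun _ => PP X).filter fun p => Function.Injective p ∧ ∏ i, p i ≤ X

theorem mem_PP {X p : ℕ} : p ∈ PP X ↔ Pr p ∧ p ≤ X := by
  unfold PP
  rw [mem_filter, mem_Icc]
  exact ⟨fun h => ⟨h.2, h.1.2⟩, fun h => ⟨⟨h.1.1.one_le, h.2⟩, h.1⟩⟩

theorem Pr.five {p : ℕ} (h : Pr p) : 5 ≤ p := by
  have h1 := h.1.two_le
  have h2 := h.2
  rcases (by omega : p = 2 ∨ p = 3 ∨ p = 4 ∨ 5 ≤ p) with rfl | rfl | rfl | h3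
  · omega
  · omega
  · omega
  · exact h3

theorem prod_pos' {k : ℕ} {p : Fin k → ℕ} (h : ∀ i, Pr (p i)) : 0 < ∏ i, p i :=
  prod_pos fun i _ => (h i).1.pos

theorem mem_TT {k X : ℕ} {p : Fin k → ℕ} :
    p ∈ TT k X ↔ (∀ i, Pr (p i)) ∧ Function.Injective p ∧ ∏ i, p i ≤ X := by
  unfold TT
  rw [mem_filter, Fintype.mem_piFinset]
  constructor
  · rintro ⟨h1, h2, h3⟩
    exact ⟨fun i => (mem_PP.1 (h1 i)).1, h2, h3⟩
  · rintro ⟨h1, h2, h3⟩
    refine ⟨fun i => mem_PP.2 ⟨h1 i, le_trans (Nat.le_of_dvd (prod_pos' h1) ?_) h3⟩, h2, h3⟩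
    exact dvd_prod_of_mem p (mem_univ i)

/-- the sum of the inverses -/
noncomputable def s (X : ℕ) : ℝ := ∑ p ∈ PP X, (1 : ℝ) / p

theorem s_nonneg (X : ℕ) : 0 ≤ s X := sum_nonneg fun _ _ => by positivity

theorem PP_mono {X Y : ℕ} (h : X ≤ Y) : PP X ⊆ PP Y := fun p hp => by
  rw [mem_PP] at hp ⊢
  exact ⟨hp.1, hp.2.trans h⟩

theorem s_mono {X Y : ℕ} (h : X ≤ Y) : s X ≤ s Y :=
  sum_le_sum_of_subset_of_nonneg (PP_mono h) fun _ _ _ => by positivity

theorem s_Icc (X : ℕ) : s X = ∑ p ∈ (Icc 1 X).filter (fun p => p.Prime ∧ p % 4 = 1), (1 : ℝ) / p := by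
  unfold s PP Pr
  congr

/-- Mertens -/
theorem mer : ∃ C : ℝ, 0 ≤ C ∧ ∀ x : ℕ, 3 ≤ x → |s x - 1 / 2 * Real.log (Real.log x)| ≤ C := by
  obtain ⟨C, hC, h⟩ := Pool.Agent.Y405.CQ.mertens_ap 4 (by norm_num) 1 (by norm_num) (by norm_num)
  refine ⟨C, hC, fun x hx => ?_⟩
  have h1 := h x hx
  have h2 : Nat.totient 4 = 2 := by decide
  rw [h2] at h1
  rw [s_Icc]
  push_cast at h1
  exact h1

/-- Chebyshev, upper bound -/
theorem up (X m : ℕ) (hm : 1 ≤ m) (h : m < X) :
    ((PP (X / m)).card : ℝ) ≤ 5 * ((X : ℝ) / m) / Real.log ((X : ℝ) / m) := by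
  have hm0 : (0 : ℝ) < m := by exact_mod_cast hm
  have hy : (1 : ℝ) < (X : ℝ) / m := by
    rw [lt_div_iff₀ hm0, one_mul]
    exact_mod_cast h
  set y : ℝ := (X : ℝ) / m with hyd
  have h1 : (PP (X / m)).card ≤ Nat.primeCounting (X / m) := by
    rw [Nat.primeCounting, Nat.primeCounting', Nat.count_eq_card_filter_range]
    refine card_le_card fun p hp => ?_
    rw [mem_PP] at hp
    rw [mem_filter, mem_range]
    exact ⟨by omega, hp.1.1⟩
  have h2 : (X / m : ℕ) = ⌊y⌋₊ := by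
    rw [hyd, Nat.floor_div_natCast, Nat.floor_natCast]
  have h3 := Chebyshev.pi_le_log4_mul_div hy
  rw [← h2] at h3
  have hl : 0 < Real.log y := Real.log_pos hy
  have hs : 0 < √y := Real.sqrt_pos.2 (by linarith)
  have h4 : Real.log √y = Real.log y / 2 := Real.log_sqrt (by linarith)
  have h5 : Real.log y ≤ 2 * √y := by
    have := Real.log_le_sub_one_of_pos hs
    rw [h4] at this
    linarith
  have h6 : Real.log 4 ≤ 3 / 2 := by
    have e : (4 : ℝ) = 2 ^ 2 := by norm_num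
    rw [e, Real.log_pow]
    have := Real.log_two_lt_d9
    push_cast
    linarith
  have h7 : √y * √y = y := Real.mul_self_sqrt (by linarith)
  calc ((PP (X / m)).card : ℝ) ≤ (Nat.primeCounting (X / m) : ℝ) := by exact_mod_cast h1
    _ ≤ Real.log 4 * y / Real.log √y + √y := h3
    _ ≤ 5 * y / Real.log y := by
      rw [h4, le_div_iff₀ hl, add_mul, div_div_eq_mul_div, div_mul_cancel₀ _ hl.ne']
      nlinarith

/-- Chebyshev, lower bound -/
theorem low : ∃ (c : ℝ) (Y₀ : ℕ), 0 < c ∧ ∀ Y : ℕ, Y₀ ≤ Y → c * Y / Real.log Y ≤ ((PP Y).card : ℝ) := by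
  obtain ⟨c, Y₀, hc, h⟩ := Pool.Agent.Y302.CQ.t_CHE
  refine ⟨c, Y₀, hc, fun Y hY => (h Y hY 1 (by norm_num)).trans ?_⟩
  norm_cast
  refine card_le_card fun p hp => ?_
  rw [mem_filter, mem_range] at hp
  rw [mem_PP]
  exact ⟨⟨hp.2.1, by omega⟩, by omega⟩

section fib

variable {n : ℕ}

/-- the tuple without the entry `i` -/
def rm (i : Fin (n + 1)) (p : Fin (n + 1) → ℕ) : Fin n → ℕ := fun l => p (i.succAbove l)

/-- the tuple with a new entry `x` at `i` -/
def ins (i : Fin (n + 1)) (x : ℕ) (q : Fin n → ℕ) : Fin (n + 1) → ℕ :=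
  i.insertNth (α := fun _ : Fin (n + 1) => ℕ) x q

theorem ins_same (i : Fin (n + 1)) (x : ℕ) (q : Fin n → ℕ) : ins i x q i = x :=
  Fin.insertNth_apply_same (α := fun _ : Fin (n + 1) => ℕ) i x q

theorem ins_succ (i : Fin (n + 1)) (x : ℕ) (q : Fin n → ℕ) (l : Fin n) :
    ins i x q (i.succAbove l) = q l :=
  Fin.insertNth_apply_succAbove (α := fun _ : Fin (n + 1) => ℕ) i x q l

theorem rm_ins (i : Fin (n + 1)) (x : ℕ) (q : Fin n → ℕ) : rm i (ins i x q) = q :=
  funext fun l => ins_succ i x q l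

theorem ins_rm (i : Fin (n + 1)) (p : Fin (n + 1) → ℕ) : ins i (p i) (rm i p) = p := by
  funext l
  rcases Fin.eq_self_or_eq_succAbove i l with rfl | ⟨l', rfl⟩
  · exact ins_same _ _ _
  · exact ins_succ _ _ _ _

theorem inj_iff (i : Fin (n + 1)) (p : Fin (n + 1) → ℕ) : Function.Injective p ↔
    Function.Injective (rm i p) ∧ ∀ l, rm i p l ≠ p i := by
  constructor
  · intro h
    refine ⟨fun a b hab => ?_, fun l hl => ?_⟩
    · exact Fin.succAbove_right_injective (h hab)
    · exact Fin.succAbove_ne i l (h hl)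
  · rintro ⟨h1, h2⟩ a b hab
    rcases Fin.eq_self_or_eq_succAbove i a with rfl | ⟨a', rfl⟩
    · rcases Fin.eq_self_or_eq_succAbove a b with rfl | ⟨b', rfl⟩
      · rfl
      · exact absurd hab.symm (h2 b')
    · rcases Fin.eq_self_or_eq_succAbove i b with rfl | ⟨b', rfl⟩
      · exact absurd hab (h2 a')
      · rw [h1 hab]

theorem prod_rem (i : Fin (n + 1)) (p : Fin (n + 1) → ℕ) :
    ∏ l, p l = p i * ∏ l, rm i p l := Fin.prod_univ_succAbove p i

/-- the tuples over a tuple with one entry less -/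
theorem fib (i : Fin (n + 1)) (X : ℕ) (R : (Fin n → ℕ) → Prop) (L : (Fin n → ℕ) → ℕ → Prop) :
    ((TT (n + 1) X).filter fun p => R (rm i p) ∧ L (rm i p) (p i)).card =
      ∑ q ∈ (TT n X).filter R, ((PP (X / ∏ l, q l)).filter fun x => (∀ l, q l ≠ x) ∧ L q x).card := by
  rw [card_eq_sum_card_fiberwise (f := fun p => rm i p) (t := (TT n X).filter R)]
  · refine sum_congr rfl fun q hq => ?_
    rw [mem_filter, mem_TT] at hq
    obtain ⟨⟨hq1, hq2, hq3⟩, hq4⟩ := hq
    have hq0 := prod_pos' hq1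
    refine card_nbij' (fun p => p i) (fun x => ins i x q) ?_ ?_ ?_ ?_
    · intro p hp
      rw [mem_coe, mem_filter, mem_filter, mem_TT] at hp
      obtain ⟨⟨⟨h1, h2, h3⟩, h4, h5⟩, h6⟩ := hp
      have h6' : rm i p = q := h6
      rw [h6'] at h5
      rw [mem_coe, mem_filter, mem_PP, Nat.le_div_iff_mul_le hq0]
      refine ⟨⟨h1 i, ?_⟩, ?_, h5⟩
      · rw [prod_rem i p, h6'] at h3
        exact h3
      · intro l
        have := ((inj_iff i p).1 h2).2 l
        rw [h6'] at this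
        exact this
    · intro x hx
      rw [mem_coe, mem_filter, mem_PP, Nat.le_div_iff_mul_le hq0] at hx
      obtain ⟨⟨h1, h2⟩, h3, h4⟩ := hx
      have e1 := rm_ins i x q
      have e2 := ins_same i x q
      beta_reduce
      rw [mem_coe, mem_filter, mem_filter, mem_TT]
      refine ⟨⟨⟨?_, ?_, ?_⟩, ?_, ?_⟩, ?_⟩
      · intro l
        rcases Fin.eq_self_or_eq_succAbove i l with rfl | ⟨l', rfl⟩
        · rw [e2]
          exact h1
        · rw [ins_succ]
          exact hq1 l'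
      · rw [inj_iff i, e1, e2]
        exact ⟨hq2, h3⟩
      · rw [prod_rem i, e1, e2]
        exact h2
      · rw [e1]
        exact hq4
      · rw [e1, e2]
        exact h4
      · exact e1
    · intro p hp
      rw [mem_coe, mem_filter] at hp
      have h6' : rm i p = q := hp.2
      show ins i (p i) q = p
      rw [← h6']
      exact ins_rm i p
    · intro x hx
      exact ins_same i x q
  · intro p hp
    rw [mem_coe, mem_filter, mem_TT] at hp
    obtain ⟨⟨h1, h2, h3⟩, h4, h5⟩ := hp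
    rw [mem_coe, mem_filter, mem_TT]
    refine ⟨⟨fun l => h1 _, ((inj_iff i p).1 h2).1, ?_⟩, h4⟩
    refine le_trans ?_ h3
    rw [prod_rem i p]
    exact Nat.le_mul_of_pos_left _ (h1 i).1.pos

/-- the tuples with the largest entry at `i` -/
theorem maxb {X : ℕ} (hX : 2 ≤ X) (i : Fin (n + 1)) (t : Fin n → Finset ℕ) :
    (((TT (n + 1) X).filter fun p => (∀ l, p l ≤ p i) ∧ ∀ l, rm i p l ∈ t l).card : ℝ) ≤
      5 * (n + 1) * ((X : ℝ) / Real.log X) * ∏ l, ∑ x ∈ t l, (1 : ℝ) / x := by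
  have hX0 : (0 : ℝ) < X := by positivity
  have hlX : 0 < Real.log X := Real.log_pos (by exact_mod_cast (by omega : 1 < X))
  set K : ℝ := 5 * (n + 1) * ((X : ℝ) / Real.log X) with hK
  have hK0 : 0 ≤ K := by positivity
  obtain ⟨R, hR⟩ : ∃ R : (Fin n → ℕ) → Prop, ∀ q, R q ↔ ∀ l, q l ∈ t l := ⟨_, fun _ => Iff.rfl⟩
  obtain ⟨L, hL⟩ : ∃ L : (Fin n → ℕ) → ℕ → Prop, ∀ q x, L q x ↔ ∀ l, q l ≤ x :=
    ⟨_, fun _ _ => Iff.rfl⟩
  have h1 : ((TT (n + 1) X).filter fun p => (∀ l, p l ≤ p i) ∧ ∀ l, rm i p l ∈ t l).card ≤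
      ((TT (n + 1) X).filter fun p => R (rm i p) ∧ L (rm i p) (p i)).card := by
    refine card_le_card fun p hp => ?_
    rw [mem_filter] at hp ⊢
    exact ⟨hp.1, (hR _).2 hp.2.2, (hL _ _).2 fun l => hp.2.1 _⟩
  rw [fib] at h1
  have h2 : ∀ q ∈ (TT n X).filter R,
      ((((PP (X / ∏ l, q l)).filter fun x => (∀ l, q l ≠ x) ∧ L q x).card : ℕ) : ℝ) ≤
        K * ∏ l, (1 : ℝ) / q l := by
    intro q hq
    rw [mem_filter, mem_TT] at hq
    obtain ⟨⟨hq1, hq2, hq3⟩, -⟩ := hq
    have hq0 := prod_pos' hq1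
    set m := ∏ l, q l with hm
    have hm0 : (0 : ℝ) < m := by exact_mod_cast hq0
    rcases ((PP (X / m)).filter fun x => (∀ l, q l ≠ x) ∧ L q x).eq_empty_or_nonempty
      with he | ⟨x, hx⟩
    · rw [he, card_empty, Nat.cast_zero]
      refine mul_nonneg hK0 (prod_nonneg fun _ _ => by positivity)
    · rw [mem_filter, mem_PP, Nat.le_div_iff_mul_le hq0] at hx
      obtain ⟨⟨hx1, hx2⟩, -, hx3⟩ := hx
      rw [hL] at hx3
      have hx5 := hx1.five
      have h3 : m ≤ x ^ n := by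
        rw [hm]
        refine (prod_le_prod' fun l _ => hx3 l).trans ?_
        rw [prod_const, card_univ, Fintype.card_fin]
      have h4 : m ^ (n + 1) ≤ X ^ n := by
        calc m ^ (n + 1) = m ^ n * m := pow_succ _ _
          _ ≤ m ^ n * x ^ n := Nat.mul_le_mul_left _ h3
          _ = (x * m) ^ n := by rw [mul_comm x m, mul_pow]
          _ ≤ X ^ n := Nat.pow_le_pow_left hx2 n
      have hmX : m < X := by nlinarith
      have h5 := up X m hq0 hmX
      have hy1 : (1 : ℝ) < (X : ℝ) / m := by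
        rw [lt_div_iff₀ hm0, one_mul]
        exact_mod_cast hmX
      have hly : 0 < Real.log ((X : ℝ) / m) := Real.log_pos hy1
      have h6 : Real.log X ≤ (n + 1) * Real.log ((X : ℝ) / m) := by
        rw [Real.log_div hX0.ne' hm0.ne']
        have h7 : ((n : ℝ) + 1) * Real.log m ≤ n * Real.log X := by
          have h8 : ((m : ℝ)) ^ (n + 1) ≤ (X : ℝ) ^ n := by exact_mod_cast h4
          have h9 := Real.log_le_log (by positivity) h8
          rw [Real.log_pow, Real.log_pow] at h9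
          push_cast at h9
          exact h9
        linarith
      have h7 : ∏ l, (1 : ℝ) / q l = 1 / m := by
        rw [prod_div_distrib, prod_const_one, hm]
        push_cast
        rfl
      rw [h7]
      have h8 : ((((PP (X / m)).filter fun x => (∀ l, q l ≠ x) ∧ L q x).card : ℕ) : ℝ) ≤
          ((PP (X / m)).card : ℝ) := by exact_mod_cast card_filter_le _ _
      refine h8.trans (h5.trans ?_)
      rw [hK, div_le_iff₀ hly]
      have h9 : 5 * ((X : ℝ) / m) * Real.log X ≤ 5 * ((X : ℝ) / m) * ((n + 1) *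
          Real.log ((X : ℝ) / m)) := mul_le_mul_of_nonneg_left h6 (by positivity)
      have h10 : 5 * (n + 1) * ((X : ℝ) / Real.log X) * (1 / m) * Real.log ((X : ℝ) / m) =
          5 * ((X : ℝ) / m) * ((n + 1) * Real.log ((X : ℝ) / m)) / Real.log X := by
        field_simp
      rw [h10, le_div_iff₀ hlX]
      exact h9
  calc (((TT (n + 1) X).filter fun p => (∀ l, p l ≤ p i) ∧ ∀ l, rm i p l ∈ t l).card : ℝ) ≤
        ∑ q ∈ (TT n X).filter R,
          ((((PP (X / ∏ l, q l)).filter fun x => (∀ l, q l ≠ x) ∧ L q x).card : ℕ) : ℝ) := by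
        exact_mod_cast h1
    _ ≤ ∑ q ∈ (TT n X).filter R, K * ∏ l, (1 : ℝ) / q l := sum_le_sum h2
    _ ≤ ∑ q ∈ Fintype.piFinset t, K * ∏ l, (1 : ℝ) / q l := by
        refine sum_le_sum_of_subset_of_nonneg (fun q hq => ?_) fun _ _ _ =>
          mul_nonneg hK0 (prod_nonneg fun _ _ => by positivity)
        rw [Fintype.mem_piFinset]
        exact (hR q).1 (mem_filter.1 hq).2
    _ = K * ∏ l, ∑ x ∈ t l, (1 : ℝ) / x := by
        rw [← mul_sum, prod_univ_sum]

end fib

/-- the upper bound for the number of tuples -/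
theorem upT (n : ℕ) {X : ℕ} (hX : 2 ≤ X) :
    ((TT (n + 1) X).card : ℝ) ≤ 5 * (n + 1) ^ 2 * ((X : ℝ) / Real.log X) * s X ^ n := by
  have h1 : TT (n + 1) X ⊆ univ.biUnion fun i : Fin (n + 1) =>
      (TT (n + 1) X).filter fun p => (∀ l, p l ≤ p i) ∧ ∀ l, rm i p l ∈ PP X := by
    intro p hp
    obtain ⟨i, hi⟩ := Finite.exists_max p
    rw [mem_biUnion]
    refine ⟨i, mem_univ _, mem_filter.2 ⟨hp, hi, fun l => ?_⟩⟩
    unfold TT at hp
    rw [mem_filter, Fintype.mem_piFinset] at hp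
    exact hp.1 _
  have h2 : ((TT (n + 1) X).card : ℝ) ≤ ∑ i : Fin (n + 1), (((TT (n + 1) X).filter fun p =>
      (∀ l, p l ≤ p i) ∧ ∀ l, rm i p l ∈ PP X).card : ℝ) := by
    exact_mod_cast (card_le_card h1).trans card_biUnion_le
  refine h2.trans ((sum_le_sum fun i _ => maxb hX i fun _ => PP X).trans (le_of_eq ?_))
  rw [sum_const, card_univ, Fintype.card_fin, nsmul_eq_mul, prod_const, card_univ, Fintype.card_fin]
  unfold s
  push_cast
  ring

/-- the tuples with a small entry -/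
theorem upS (n : ℕ) {X z : ℕ} (hX : 2 ≤ X) :
    (((TT (n + 1) X).filter fun p => ∃ j, p j ≤ z).card : ℝ) ≤
      5 * (n + 1) ^ 2 * n * ((X : ℝ) / Real.log X) * (s z * s X ^ (n - 1)) + (z : ℝ) ^ (n + 1) := by
  set t : Fin n → Fin n → Finset ℕ := fun j l => if l = j then PP z else PP X with ht
  have h1 : (TT (n + 1) X).filter (fun p => ∃ j, p j ≤ z) ⊆ (univ.biUnion fun i : Fin (n + 1) =>
      univ.biUnion fun j : Fin n => (TT (n + 1) X).filter fun p =>
        (∀ l, p l ≤ p i) ∧ ∀ l, rm i p l ∈ t j l) ∪ Fintype.piFinset fun _ => Icc 1 z := by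
    intro p hp
    rw [mem_filter] at hp
    obtain ⟨hp, j, hj⟩ := hp
    obtain ⟨i, hi⟩ := Finite.exists_max p
    have hpX : ∀ l, p l ∈ PP X := by
      have hp' := hp
      unfold TT at hp'
      rw [mem_filter, Fintype.mem_piFinset] at hp'
      exact hp'.1
    rw [mem_union]
    rcases Fin.eq_self_or_eq_succAbove i j with rfl | ⟨j', rfl⟩
    · right
      rw [Fintype.mem_piFinset]
      intro l
      rw [mem_Icc]
      exact ⟨(mem_PP.1 (hpX l)).1.1.one_le, (hi l).trans hj⟩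
    · left
      rw [mem_biUnion]
      refine ⟨i, mem_univ _, ?_⟩
      rw [mem_biUnion]
      refine ⟨j', mem_univ _, mem_filter.2 ⟨hp, hi, fun l => ?_⟩⟩
      rw [ht]
      dsimp only
      split_ifs with h
      · rw [h, mem_PP]
        exact ⟨(mem_PP.1 (hpX _)).1, hj⟩
      · exact hpX _
  have h2 : (((TT (n + 1) X).filter fun p => ∃ j, p j ≤ z).card : ℝ) ≤
      ∑ i : Fin (n + 1), ∑ j : Fin n, (((TT (n + 1) X).filter fun p =>
        (∀ l, p l ≤ p i) ∧ ∀ l, rm i p l ∈ t j l).card : ℝ) +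
      ((Fintype.piFinset fun _ : Fin (n + 1) => Icc 1 z).card : ℝ) := by
    have h3 := (card_le_card h1).trans (card_union_le _ _)
    have h4 := h3.trans (Nat.add_le_add_right (card_biUnion_le.trans
      (sum_le_sum fun i _ => card_biUnion_le)) _)
    exact_mod_cast h4
  have h3 : ∀ j : Fin n, ∏ l, ∑ x ∈ t j l, (1 : ℝ) / x = s z * s X ^ (n - 1) := by
    intro j
    obtain ⟨m, rfl⟩ : ∃ m, n = m + 1 := ⟨n - 1, by have := j.2; omega⟩
    rw [Fin.prod_univ_succAbove _ j]
    have e1 : t j j = PP z := by rw [ht]; dsimp only; rw [if_pos rfl]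
    have e2 : ∀ l : Fin m, t j (j.succAbove l) = PP X := by
      intro l
      rw [ht]
      dsimp only
      rw [if_neg (Fin.succAbove_ne j l)]
    simp only [e1, e2, prod_const, card_univ, Fintype.card_fin]
    rfl
  refine h2.trans (add_le_add ?_ ?_)
  · refine (sum_le_sum fun i _ => sum_le_sum fun j _ => maxb hX i (t j)).trans (le_of_eq ?_)
    simp only [h3, sum_const, card_univ, Fintype.card_fin, nsmul_eq_mul]
    push_cast
    ring
  · rw [Fintype.card_piFinset, prod_const, card_univ, Fintype.card_fin, Nat.card_Icc]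
    simp

/-- the sum over the tuples of different primes -/
noncomputable def In (n Y : ℕ) : ℝ :=
  ∑ q ∈ (Fintype.piFinset fun _ : Fin n => PP Y).filter Function.Injective, ∏ l, (1 : ℝ) / q l

theorem In_nonneg (n Y : ℕ) : 0 ≤ In n Y := sum_nonneg fun _ _ => prod_nonneg fun _ _ => by positivity

theorem In_succ (n Y : ℕ) : In n Y * (s Y - n) ≤ In (n + 1) Y := by
  set A := (Fintype.piFinset fun _ : Fin n => PP Y).filter Function.Injective with hA
  set B := (A ×ˢ PP Y).filter fun e => ∀ l, e.1 l ≠ e.2 with hB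
  have h1 : ∑ e ∈ B, (∏ l, (1 : ℝ) / e.1 l) * (1 / e.2) ≤ In (n + 1) Y := by
    have h2 : ∑ e ∈ B, (∏ l, (1 : ℝ) / e.1 l) * (1 / e.2) =
        ∑ p ∈ B.image (fun e => (Fin.cons e.2 e.1 : Fin (n + 1) → ℕ)), ∏ l, (1 : ℝ) / p l := by
      rw [sum_image]
      · refine sum_congr rfl fun e _ => ?_
        rw [Fin.prod_univ_succ]
        simp only [Fin.cons_zero, Fin.cons_succ]
        ring
      · intro e _ e' _ h
        have h3 := Fin.cons_injective2 h
        exact Prod.ext h3.2 h3.1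
    rw [h2]
    refine sum_le_sum_of_subset_of_nonneg (fun p hp => ?_) fun _ _ _ =>
      prod_nonneg fun _ _ => by positivity
    rw [mem_image] at hp
    obtain ⟨e, he, rfl⟩ := hp
    rw [hB, mem_filter, mem_product, hA, mem_filter, Fintype.mem_piFinset] at he
    obtain ⟨⟨⟨h3, h4⟩, h5⟩, h6⟩ := he
    rw [mem_filter, Fintype.mem_piFinset]
    refine ⟨fun l => ?_, ?_⟩
    · refine Fin.cases ?_ (fun l => ?_) l
      · rw [Fin.cons_zero]
        exact h5
      · rw [Fin.cons_succ]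
        exact h3 l
    · rw [Fin.cons_injective_iff]
      refine ⟨?_, h4⟩
      rintro ⟨l, hl⟩
      exact h6 l hl
  refine le_trans ?_ h1
  have h2 : ∑ e ∈ B, (∏ l, (1 : ℝ) / e.1 l) * (1 / (e.2 : ℝ)) =
      ∑ q ∈ A, (∏ l, (1 : ℝ) / q l) * ∑ x ∈ (PP Y).filter (fun x => ∀ l, q l ≠ x), (1 : ℝ) / x := by
    rw [hB, sum_filter, sum_product]
    refine sum_congr rfl fun q _ => ?_
    rw [mul_sum, sum_filter]
  rw [h2]
  unfold In
  rw [sum_mul]
  refine sum_le_sum fun q hq => mul_le_mul_of_nonneg_left ?_ (prod_nonneg fun _ _ => by positivity)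
  have h3 : s Y = ∑ x ∈ (PP Y).filter (fun x => ∀ l, q l ≠ x), (1 : ℝ) / x +
      ∑ x ∈ (PP Y).filter (fun x => ¬ ∀ l, q l ≠ x), (1 : ℝ) / x :=
    (sum_filter_add_sum_filter_not _ _ _).symm
  have h4 : ∑ x ∈ (PP Y).filter (fun x => ¬ ∀ l, q l ≠ x), (1 : ℝ) / x ≤ n := by
    have h5 : ((PP Y).filter fun x => ¬ ∀ l, q l ≠ x) ⊆ univ.image q := by
      intro x hx
      rw [mem_filter] at hx
      have h6 := hx.2
      push Not at h6
      obtain ⟨l, hl⟩ := h6
      exact mem_image.2 ⟨l, mem_univ _, hl⟩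
    have h6 : (((PP Y).filter fun x => ¬ ∀ l, q l ≠ x).card : ℝ) ≤ n := by
      have h7 := (card_le_card h5).trans card_image_le
      rw [card_univ, Fintype.card_fin] at h7
      exact_mod_cast h7
    refine le_trans ?_ h6
    rw [← nsmul_one, ← sum_const]
    refine sum_le_sum fun x hx => ?_
    have h7 := (mem_PP.1 (mem_filter.1 hx).1).1.1.one_le
    have h8 : (1 : ℝ) ≤ x := by exact_mod_cast h7
    rw [div_le_one (by linarith)]
    exact h8
  linarith

theorem In_low (n : ℕ) {Y : ℕ} (h : (n : ℝ) ≤ s Y) : (s Y - n) ^ n ≤ In n Y := by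
  induction n with
  | zero =>
    unfold In
    rw [pow_zero]
    have : (Fintype.piFinset fun _ : Fin 0 => PP Y).filter Function.Injective = {Fin.elim0} := by
      ext q
      rw [mem_filter, mem_singleton, Fintype.mem_piFinset]
      exact ⟨fun _ => Subsingleton.elim _ _, fun _ => ⟨fun l => l.elim0, fun a => a.elim0⟩⟩
    rw [this, sum_singleton]
    simp
  | succ n ih =>
    push_cast at h
    have h1 := ih (by linarith)
    have h2 := In_succ n Y
    have h3 : 0 ≤ s Y - n := by linarith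
    have h4 : 0 ≤ s Y - (n + 1) := by linarith
    calc (s Y - ((n + 1 : ℕ) : ℝ)) ^ (n + 1) ≤ (s Y - n) ^ (n + 1) := by
          apply pow_le_pow_left₀
          · push_cast
            exact h4
          · push_cast
            linarith
      _ = (s Y - n) ^ n * (s Y - n) := pow_succ _ _
      _ ≤ In n Y * (s Y - n) := mul_le_mul_of_nonneg_right h1 h3
      _ ≤ _ := h2

end Pool.Agent.H20PT.KP
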