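import Pool.Agent.H20PT.KP.Low

/-!
# The labels of the entries of a tuple are asymptotically independent
-/

set_option autoImplicit false
set_option linter.unusedVariables false

open scoped Classical

namespace Pool.Agent.H20PT.KP

open Finset Filter Topology

/-- `L` has the density `μ` among the primes `≡ 1` modulo `4` -/
def Dn (L : ℕ → Prop) (μ : ℝ) : Prop :=
  Tendsto (fun X : ℕ => (((PP X).filter L).card : ℝ) / ((PP X).card : ℝ)) atTop (𝓝 μ)

theorem dn_eps {L : ℕ → Prop} {μ : ℝ} (h : Dn L μ) {ε : ℝ} (hε : 0 < ε) :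
    ∃ K : ℝ, 0 ≤ K ∧ ∀ Z : ℕ, |(((PP Z).filter L).card : ℝ) - μ * ((PP Z).card : ℝ)| ≤
      ε * ((PP Z).card : ℝ) + K := by
  have h1 := (Metric.tendsto_atTop.1 h) ε hε
  obtain ⟨Z₀, hZ₀⟩ := h1
  refine ⟨(1 + |μ|) * Z₀, by positivity, fun Z => ?_⟩
  have hc0 : (0 : ℝ) ≤ ((PP Z).card : ℝ) := Nat.cast_nonneg _
  have hf : (((PP Z).filter L).card : ℝ) ≤ ((PP Z).card : ℝ) := by
    exact_mod_cast card_filter_le _ _
  rcases le_or_gt Z₀ Z with hZ | hZ
  · have h2 := (hZ₀ Z hZ).le
    rw [Real.dist_eq] at h2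
    have hK : 0 ≤ (1 + |μ|) * (Z₀ : ℝ) := by positivity
    rcases hc0.lt_or_eq with hc | hc
    · have h3 : (((PP Z).filter L).card : ℝ) / ((PP Z).card : ℝ) - μ =
          ((((PP Z).filter L).card : ℝ) - μ * ((PP Z).card : ℝ)) / ((PP Z).card : ℝ) := by
        field_simp
      rw [h3, abs_div, abs_of_pos hc, div_le_iff₀ hc] at h2
      linarith
    · have h3 : (((PP Z).filter L).card : ℝ) = 0 := le_antisymm (hc ▸ hf) (Nat.cast_nonneg _)
      rw [h3, ← hc]
      simpa using hK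
  · have h2 : ((PP Z).card : ℝ) ≤ Z₀ := by
      have h3 : (PP Z).card ≤ (Icc 1 Z).card := card_filter_le _ _
      rw [Nat.card_Icc] at h3
      have h4 : (PP Z).card ≤ Z₀ := by omega
      exact_mod_cast h4
    have h3 : |(((PP Z).filter L).card : ℝ) - μ * ((PP Z).card : ℝ)| ≤
        (1 + |μ|) * ((PP Z).card : ℝ) := by
      refine (abs_sub _ _).trans ?_
      rw [abs_mul, abs_of_nonneg hc0, abs_of_nonneg (Nat.cast_nonneg _ : (0 : ℝ) ≤
        (((PP Z).filter L).card : ℝ)), add_mul, one_mul]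
      linarith
    have h4 : (1 + |μ|) * ((PP Z).card : ℝ) ≤ (1 + |μ|) * (Z₀ : ℝ) :=
      mul_le_mul_of_nonneg_left h2 (by positivity)
    have h5 : 0 ≤ ε * ((PP Z).card : ℝ) := by positivity
    linarith

theorem sum_pi (n X : ℕ) : ∑ q ∈ TT n X, ((PP (X / ∏ l, q l)).card : ℝ) ≤
    ((TT (n + 1) X).card : ℝ) + n * ((TT n X).card : ℝ) := by
  rw [fib1]
  push_cast
  have h : (n : ℝ) * ((TT n X).card : ℝ) = ∑ q ∈ TT n X, (n : ℝ) := by
    rw [sum_const, nsmul_eq_mul]
    ring
  rw [h, ← sum_add_distrib]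
  exact sum_le_sum fun q _ => avoid q _

/-- one coordinate -/
theorem one_eps {n : ℕ} (i : Fin (n + 1)) {L : ℕ → Prop} {μ : ℝ} (h : Dn L μ) {ε : ℝ} (hε : 0 < ε) :
    ∃ K : ℝ, 0 ≤ K ∧ ∀ (X : ℕ) (R : (Fin n → ℕ) → Prop),
      |(((TT (n + 1) X).filter fun p => R (rm i p) ∧ L (p i)).card : ℝ) -
        μ * (((TT (n + 1) X).filter fun p => R (rm i p)).card : ℝ)| ≤
      ε * ((TT (n + 1) X).card : ℝ) + K * ((TT n X).card : ℝ) := by
  obtain ⟨K, hK, hZ⟩ := dn_eps h hε
  refine ⟨ε * n + K + (1 + |μ|) * n, by positivity, fun X R => ?_⟩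
  have e1 := fib i X R (fun _ x => L x)
  have e2 := fib i X R (fun _ _ => True)
  simp only [and_true] at e2
  rw [e1, e2]
  push_cast
  rw [mul_sum, ← sum_sub_distrib]
  refine (abs_sum_le_sum_abs _ _).trans ?_
  have h1 : ∀ q ∈ (TT n X).filter R,
      |(((PP (X / ∏ l, q l)).filter fun x => (∀ l, q l ≠ x) ∧ L x).card : ℝ) -
        μ * (((PP (X / ∏ l, q l)).filter fun x => ∀ l, q l ≠ x).card : ℝ)| ≤
      ε * ((PP (X / ∏ l, q l)).card : ℝ) + (K + (1 + |μ|) * n) := by
    intro q _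
    set Z := X / ∏ l, q l with hZd
    have h2 := hZ Z
    have h3 := avoid q (PP Z)
    have h4 := avoid q ((PP Z).filter L)
    have h5 : ((PP Z).filter L).filter (fun x => ∀ l, q l ≠ x) =
        (PP Z).filter fun x => (∀ l, q l ≠ x) ∧ L x := by
      ext x
      simp only [mem_filter]
      tauto
    rw [h5] at h4
    have h6 : (((PP Z).filter fun x => ∀ l, q l ≠ x).card : ℝ) ≤ ((PP Z).card : ℝ) := by
      exact_mod_cast card_filter_le _ _
    have h7 : (((PP Z).filter fun x => (∀ l, q l ≠ x) ∧ L x).card : ℝ) ≤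
        (((PP Z).filter L).card : ℝ) := by
      rw [← h5]
      exact_mod_cast card_filter_le _ _
    set a := (((PP Z).filter fun x => (∀ l, q l ≠ x) ∧ L x).card : ℝ)
    set b := (((PP Z).filter fun x => ∀ l, q l ≠ x).card : ℝ)
    set a' := (((PP Z).filter L).card : ℝ)
    set b' := ((PP Z).card : ℝ)
    have h8 : a - μ * b = (a' - μ * b') + ((a - a') + μ * (b' - b)) := by ring
    rw [h8]
    refine (abs_add_le _ _).trans ?_
    have h9 : |(a - a') + μ * (b' - b)| ≤ (1 + |μ|) * n := by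
      refine (abs_add_le _ _).trans ?_
      rw [abs_mul, add_mul, one_mul]
      refine add_le_add ?_ (mul_le_mul_of_nonneg_left ?_ (abs_nonneg _))
      · rw [abs_le]
        constructor <;> linarith
      · rw [abs_le]
        constructor <;> linarith
    linarith
  refine (sum_le_sum h1).trans ((sum_le_sum_of_subset_of_nonneg (filter_subset _ _)
    fun _ _ _ => by positivity).trans ?_)
  rw [sum_add_distrib, ← mul_sum, sum_const, nsmul_eq_mul]
  have h2 := mul_le_mul_of_nonneg_left (sum_pi n X) hε.le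
  nlinarith

/-- a quantity which is negligible -/
def Ng (n : ℕ) (f : ℕ → ℝ) : Prop := Tendsto (fun X : ℕ => f X / W n X) atTop (𝓝 0)

theorem Ng.add {n : ℕ} {f g : ℕ → ℝ} (hf : Ng n f) (hg : Ng n g) : Ng n fun X => f X + g X := by
  unfold Ng at *
  have := hf.add hg
  rw [add_zero] at this
  refine this.congr fun X => ?_
  rw [add_div]

theorem Ng.const_mul {n : ℕ} {f : ℕ → ℝ} (hf : Ng n f) (c : ℝ) : Ng n fun X => c * f X := by
  unfold Ng at *
  have := hf.const_mul c
  rw [mul_zero] at this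
  refine this.congr fun X => ?_
  rw [mul_div_assoc]

theorem Ng.of_le {n : ℕ} {f g : ℕ → ℝ} (hg : Ng n g) (h : ∀ᶠ X in atTop, |f X| ≤ g X) : Ng n f := by
  unfold Ng at *
  refine squeeze_zero_norm' ?_ hg
  filter_upwards [h, W_pos n] with X h1 h2
  rw [Real.norm_eq_abs, abs_div, abs_of_pos h2, div_le_div_iff_of_pos_right h2]
  exact h1

theorem Ng.sum {n : ℕ} {ι : Type} (F : Finset ι) {f : ι → ℕ → ℝ} (h : ∀ i ∈ F, Ng n (f i)) :
    Ng n fun X => ∑ i ∈ F, f i X := by
  unfold Ng at *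
  have := tendsto_finsetSum F h
  rw [sum_const_zero] at this
  refine this.congr fun X => ?_
  rw [sum_div]

theorem Ng.congr {n : ℕ} {f g : ℕ → ℝ} (hf : Ng n f) (h : ∀ X, f X = g X) : Ng n g := by
  have : f = g := funext h
  rwa [← this]

/-- one coordinate -/
theorem one_ng {n : ℕ} (i : Fin (n + 1)) {L : ℕ → Prop} {μ : ℝ} (h : Dn L μ)
    (R : ℕ → (Fin n → ℕ) → Prop) :
    Ng n fun X => (((TT (n + 1) X).filter fun p => R X (rm i p) ∧ L (p i)).card : ℝ) -
        μ * (((TT (n + 1) X).filter fun p => R X (rm i p)).card : ℝ) := by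
  obtain ⟨C, hC, hup⟩ := upW n
  have hn := negl n
  unfold Ng
  rw [Metric.tendsto_atTop']
  intro ε hε
  obtain ⟨K, hK, h1⟩ := one_eps i h (show 0 < ε / (2 * C + 1) by positivity)
  have h2 := (Metric.tendsto_nhds.1 hn) (ε / (2 * (K + 1))) (by positivity)
  obtain ⟨N, hN⟩ := eventually_atTop.1 (h2.and (hup.and (W_pos n)))
  refine ⟨N, fun X hX => ?_⟩
  obtain ⟨h3, h4, h5⟩ := hN X hX.le
  rw [Real.dist_eq, sub_zero, abs_div, abs_of_pos h5, div_lt_iff₀ h5]
  rw [Real.dist_eq, sub_zero, abs_of_nonneg (by positivity), div_lt_iff₀ h5] at h3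
  refine lt_of_le_of_lt (h1 X (R X)) ?_
  have h6 : ε / (2 * C + 1) * ((TT (n + 1) X).card : ℝ) ≤ ε / (2 * C + 1) * (C * W n X) :=
    mul_le_mul_of_nonneg_left h4 (by positivity)
  have h7 : ε / (2 * C + 1) * (C * W n X) < ε / 2 * W n X := by
    have h8 : ε / (2 * C + 1) * C < ε / 2 := by
      rw [div_mul_eq_mul_div, div_lt_div_iff₀ (by positivity) (by norm_num)]
      nlinarith
    have := mul_lt_mul_of_pos_right h8 h5
    linarith
  have h8 : K * ((TT n X).card : ℝ) ≤ ε / 2 * W n X := by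
    have h9 := mul_le_mul_of_nonneg_left h3.le hK
    have h10 : K * (ε / (2 * (K + 1)) * W n X) ≤ ε / 2 * W n X := by
      have h11 : K * (ε / (2 * (K + 1))) ≤ ε / 2 := by
        rw [mul_div_assoc', div_le_div_iff₀ (by positivity) (by norm_num)]
        nlinarith
      have := mul_le_mul_of_nonneg_right h11 h5.le
      linarith
    linarith
  linarith

/-- **the labels are independent** -/
theorem labels {n : ℕ} {L : Fin (n + 1) → ℕ → Prop} {μ : Fin (n + 1) → ℝ} (h : ∀ i, Dn (L i) (μ i))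
    (F : Finset (Fin (n + 1))) :
    Ng n fun X => (((TT (n + 1) X).filter fun p => ∀ i ∈ F, L i (p i)).card : ℝ) -
      (∏ i ∈ F, μ i) * ((TT (n + 1) X).card : ℝ) := by
  induction F using Finset.induction_on with
  | empty =>
    unfold Ng
    refine tendsto_const_nhds.congr fun X => ?_
    simp
  | insert i F hi ih =>
    obtain ⟨R, hR⟩ : ∃ R : ℕ → (Fin n → ℕ) → Prop, ∀ X q, R X q ↔ ∀ j ∈ F, L j (ins i 0 q j) :=
      ⟨_, fun _ _ => Iff.rfl⟩
    have hRp : ∀ (X : ℕ) (p : Fin (n + 1) → ℕ), R X (rm i p) ↔ ∀ j ∈ F, L j (p j) := by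
      intro X p
      rw [hR]
      refine forall₂_congr fun j hj => ?_
      have hji : j ≠ i := fun h => hi (h ▸ hj)
      obtain ⟨l, rfl⟩ := Fin.exists_succAbove_eq hji
      rw [ins_succ]
      rfl
    have h1 := one_ng i (h i) R
    have h2 := h1.add (ih.const_mul (μ i))
    refine h2.congr fun X => ?_
    have e1 : (TT (n + 1) X).filter (fun p => R X (rm i p) ∧ L i (p i)) =
        (TT (n + 1) X).filter fun p => ∀ j ∈ insert i F, L j (p j) := by
      refine filter_congr fun p _ => ?_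
      rw [hRp]
      constructor
      · rintro ⟨h3, h4⟩ j hj
        rcases mem_insert.1 hj with rfl | hj
        · exact h4
        · exact h3 j hj
      · intro h3
        exact ⟨fun j hj => h3 j (mem_insert_of_mem hj), h3 i (mem_insert_self _ _)⟩
    have e2 : (TT (n + 1) X).filter (fun p => R X (rm i p)) =
        (TT (n + 1) X).filter fun p => ∀ j ∈ F, L j (p j) := filter_congr fun p _ => hRp X p
    rw [e1, e2, prod_insert hi]
    ring

end Pool.Agent.H20PT.KP
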