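import Pool.Agent.H20PT.KP.Pat

/-!
# Many prime factors: the law tends to the product law
-/

set_option autoImplicit false
set_option linter.unusedVariables false

open scoped Classical

namespace Pool.Agent.H20PT.KP

open Function Finset Filter Topology
open Pool.Agent.Y759.CX (fr fr_equiv fr_comp fr_prod fr_nonneg fr_le_one fr_mono fr_exists fr_not)
open Pool.Agent.Y703.CQ (nr prs ext c2)
open Pool.Agent.Y698.SG (n4)
open Pool.Agent.R413.SQ.SM (ue)
open Pool.Agent.Y687.JQ (GdM)
open Pool.Agent.Y697.JQ (pt)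
open Pool.Agent.Y219.CQ (F mem_prs ext_self ext_pos ext_neg ext_symm ext_add)

section rho

variable {J : Type} [Fintype J] [LinearOrder J]

/-- the symbols with first entry in `J₁` -/
noncomputable def rho (J1 : Finset J) : (prs (univ : Finset J) → F) →+ (prs J1 → F) where
  toFun α := fun e => ext α e.1.1 e.1.2
  map_zero' := by
    funext e
    have h1 := ext_add univ (0 : prs (univ : Finset J) → F) 0 e.1.1 e.1.2
    rw [add_zero] at h1
    exact left_eq_add.1 h1
  map_add' α β := by
    funext e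
    exact ext_add univ α β e.1.1 e.1.2

theorem rho_surj (J1 : Finset J) : Surjective (rho J1) := by
  intro β
  obtain ⟨α, hα⟩ : ∃ α : prs (univ : Finset J) → F, α = fun e =>
    if h : (e.1.1, e.1.2) ∈ prs J1 then β ⟨(e.1.1, e.1.2), h⟩ else
      if h : (e.1.2, e.1.1) ∈ prs J1 then β ⟨(e.1.2, e.1.1), h⟩ else 0 := ⟨_, rfl⟩
  refine ⟨α, funext fun e => ?_⟩
  show ext α e.1.1 e.1.2 = β e
  obtain ⟨⟨k, l⟩, he⟩ := e
  have h1 := (mem_prs J1 k l).1 he
  rcases lt_or_gt_of_ne h1.2.1 with h | h
  · -- `l < k`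
    have hl : l ∉ J1 := fun hl => lt_asymm h (h1.2.2 hl)
    show ext α k l = _
    rw [ext_neg univ α ((mem_prs univ l k).2 ⟨mem_univ _, h.ne', fun _ => h⟩) (mem_univ _), hα]
    simp only
    rw [dif_neg fun h' => hl ((mem_prs J1 l k).1 h').1, dif_pos he]
  · show ext α k l = _
    rw [ext_pos univ α ((mem_prs univ k l).2 ⟨mem_univ _, h.ne', fun _ => h⟩), hα]
    simp only
    rw [dif_pos he]

theorem ext_rho (J1 : Finset J) (α : prs (univ : Finset J) → F) {k : J} (hk : k ∈ J1) (l : J) :
    ext (rho J1 α) k l = ext α k l := by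
  rcases lt_trichotomy k l with h | h | h
  · rw [ext_pos J1 _ ((mem_prs J1 k l).2 ⟨hk, h.ne', fun _ => h⟩)]
    rfl
  · rw [h, ext_self, ext_self]
  · by_cases hl : l ∈ J1
    · rw [ext_neg J1 _ ((mem_prs J1 l k).2 ⟨hl, h.ne', fun _ => h⟩) hk]
      exact ext_symm univ α (mem_univ _) (mem_univ _)
    · rw [ext_pos J1 _ ((mem_prs J1 k l).2 ⟨hk, h.ne, fun h' => absurd h' hl⟩)]
      rfl

end rho

/-- few occurrences of a value are unlikely -/
theorem chern {M : Type} [Fintype M] [Nonempty M] [DecidableEq M] (y : M) (R k : ℕ) :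
    fr (fun x : Fin k → M => (univ.filter fun i => x i = y).card < R) ≤
      2 ^ R * (1 - 1 / (2 * (Fintype.card M : ℝ))) ^ k := by
  have hm : (0 : ℝ) < Fintype.card M := by exact_mod_cast Fintype.card_pos
  set m : ℝ := (Fintype.card M : ℝ) with hmd
  have h1 : ∑ x : Fin k → M, ∏ i, (if x i = y then (1 / 2 : ℝ) else 1) = (m - 1 / 2) ^ k := by
    have h2 := prod_univ_sum (fun _ : Fin k => (univ : Finset M)) (fun _ z => if z = y then (1 / 2 : ℝ) else 1)
    rw [Fintype.piFinset_univ] at h2
    rw [← h2, prod_const, card_univ, Fintype.card_fin]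
    congr 1
    have h3 : ∀ z : M, (if z = y then (1 / 2 : ℝ) else 1) = 1 - if z = y then 1 / 2 else 0 := by
      intro z
      split_ifs <;> norm_num
    simp only [h3, sum_sub_distrib, sum_const, card_univ, nsmul_eq_mul, mul_one, sum_ite_eq',
      mem_univ, if_true]
    rw [hmd]
  have h2 : (((univ.filter fun x : Fin k → M => (univ.filter fun i => x i = y).card < R).card : ℕ) : ℝ) *
      (1 / 2) ^ R ≤ (m - 1 / 2) ^ k := by
    rw [← h1, ← nsmul_eq_mul, ← sum_const]
    refine (sum_le_sum fun x hx => ?_).trans (sum_le_sum_of_subset_of_nonneg (filter_subset _ _)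
      fun x _ _ => prod_nonneg fun i _ => ?_)
    · rw [prod_ite, prod_const, prod_const_one, mul_one]
      exact pow_le_pow_of_le_one (by norm_num) (by norm_num) (mem_filter.1 hx).2.le
    · split_ifs <;> norm_num
  unfold fr
  rw [Nat.card_eq_fintype_card, Fintype.card_subtype, Nat.card_eq_fintype_card, Fintype.card_fun,
    Fintype.card_fin]
  push_cast
  rw [← hmd, div_le_iff₀ (by positivity)]
  have h3 : (2 : ℝ) ^ R * (1 - 1 / (2 * m)) ^ k * m ^ k = 2 ^ R * (m - 1 / 2) ^ k := by
    rw [mul_assoc, ← mul_pow]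
    congr 2
    field_simp
  rw [h3]
  have h4 := mul_le_mul_of_nonneg_left h2 (show (0 : ℝ) ≤ 2 ^ R by positivity)
  refine le_trans (le_of_eq ?_) h4
  rw [mul_comm, mul_assoc, ← mul_pow]
  norm_num

theorem avg_bd {G : Type} [Fintype G] [Nonempty G] (h : G → ℝ) {c ε : ℝ} (Good : G → Prop)
    (h0 : ∀ g, 0 ≤ h g) (h1 : ∀ g, h g ≤ 1) (hc0 : 0 ≤ c) (hc1 : c ≤ 1) (hε : 0 ≤ ε)
    (hg : ∀ g, Good g → |h g - c| ≤ ε) :
    |(∑ g, h g) / Nat.card G - c| ≤ ε + fr (fun g => ¬ Good g) := by
  have hG : (0 : ℝ) < Nat.card G := by exact_mod_cast Nat.card_pos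
  have e1 : (∑ g : G, h g) / Nat.card G - c = (∑ g : G, (h g - c)) / Nat.card G := by
    rw [sum_sub_distrib, sum_const, nsmul_eq_mul, card_univ, ← Nat.card_eq_fintype_card, sub_div,
      mul_div_cancel_left₀ _ hG.ne']
  rw [e1, abs_div, abs_of_pos hG, div_le_iff₀ hG]
  have h2 : ∀ g : G, |h g - c| ≤ ε + (if ¬ Good g then 1 else 0) := by
    intro g
    by_cases hgg : Good g
    · rw [if_neg (not_not.2 hgg), add_zero]
      exact hg g hgg
    · rw [if_pos hgg]
      have h3 := h0 g
      have h4 := h1 g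
      rw [abs_le]
      constructor <;> linarith
  refine (abs_sum_le_sum_abs _ _).trans ((sum_le_sum fun g _ => h2 g).trans (le_of_eq ?_))
  rw [sum_add_distrib, sum_const, nsmul_eq_mul, card_univ, ← Nat.card_eq_fintype_card, sum_boole]
  unfold fr
  rw [add_mul, div_mul_cancel₀ _ hG.ne', Nat.card_eq_fintype_card (α := {g // ¬ Good g}),
    Fintype.card_subtype]
  ring

/-- the space of the labels and the symbols -/
abbrev Om (W : Finset ℕ) (k : ℕ) : Type := (Fin k → Mu W) × (prs (univ : Finset (Fin k)) → ZMod 2)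

/-- the projection to the labels -/
def pr1 (W : Finset ℕ) {k : ℕ} (x : Fin k → Mu W) : Fin k → La W := fun i => pj W (x i)

theorem mem_Js {W : Finset ℕ} {k : ℕ} (x : Fin k → Mu W) (i : Fin k) :
    i ∈ Js (pr1 W x) ↔ (x i).1.1 = true := by
  unfold Js pr1 pj
  rw [mem_filter]
  cases (x i).1.1 <;> simp

/-- the tuples of labels in which all labels occur -/
def Gx {W : Finset ℕ} {k : ℕ} (R : ℕ) (x : Fin k → Mu W) : Prop :=
  ∀ y : Mu W, R ≤ (univ.filter fun i => x i = y).card

theorem many {W : Finset ℕ} {k : ℕ} {R : ℕ} {x : Fin k → Mu W} (hx : Gx R x) (y : Mu W)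
    (A : Finset (Fin k)) (hA : ∀ i, x i = y → i ∈ A) : R ≤ A.card :=
  (hx y).trans (card_le_card fun i hi => hA i (mem_filter.1 hi).2)

theorem fr_bad (W : Finset ℕ) (R : ℕ) :
    Tendsto (fun k : ℕ => fr (fun x : Fin k → Mu W => ¬ Gx R x)) atTop (𝓝 0) := by
  set m : ℝ := (Fintype.card (Mu W) : ℝ) with hm
  have hm1 : 1 ≤ m := by
    rw [hm]
    exact_mod_cast Fintype.card_pos
  have h1 : Tendsto (fun k : ℕ => m * (2 ^ R * (1 - 1 / (2 * m)) ^ k)) atTop (𝓝 0) := by
    have h2 : Tendsto (fun k : ℕ => (1 - 1 / (2 * m)) ^ k) atTop (𝓝 0) := by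
      have h3 : 0 < 1 / (2 * m) := by positivity
      have h4 : 1 / (2 * m) ≤ 1 := by
        rw [div_le_one (by positivity)]
        linarith
      exact tendsto_pow_atTop_nhds_zero_of_lt_one (by linarith) (by linarith)
    have := (h2.const_mul (2 ^ R)).const_mul m
    simpa using this
  refine squeeze_zero (fun k => fr_nonneg _) (fun k => ?_) h1
  have h2 : fr (fun x : Fin k → Mu W => ¬ Gx R x) ≤
      fr (fun x : Fin k → Mu W => ∃ y : Mu W, (univ.filter fun i => x i = y).card < R) := by
    refine fr_mono fun x hx => ?_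
    unfold Gx at hx
    push Not at hx
    exact hx
  refine h2.trans ?_
  have h3 := fr_exists (fun (y : Mu W) (x : Fin k → Mu W) => (univ.filter fun i => x i = y).card < R)
    (ε := 2 ^ R * (1 - 1 / (2 * m)) ^ k) (fun y => by rw [hm]; exact chern y R k)
  exact h3

/-- one family of masks -/
theorem lim_M {W : Finset ℕ} (hW : ∀ u ∈ W, u.Prime ∧ u % 4 = 1) {M : ℕ} (V : Fin M → Finset ℕ)
    (hV : ∀ i, V i ⊆ W) (hVi : Injective V) :
    Tendsto (fun k : ℕ => fr (fun x : Om W k => ∀ i, GM W (V i) (pr1 W x.1) x.2)) atTop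
      (𝓝 (c2 ^ M)) := by
  have hc := Pool.Agent.Y948.CQ.t_C2
  rw [Metric.tendsto_atTop]
  intro ε hε
  obtain ⟨R, hR⟩ := Pool.Agent.Y697.JQ.t_JLA M (ε / 3) (by positivity)
  set R' : ℕ := 2 * (ue W).card + R + 1 with hR'
  have hbad := (Metric.tendsto_atTop.1 (fr_bad W R')) (ε / 3) (by positivity)
  obtain ⟨N, hN⟩ := hbad
  refine ⟨N, fun k hk => ?_⟩
  have h1 := hN k hk
  rw [Real.dist_eq, sub_zero, abs_of_nonneg (fr_nonneg _)] at h1
  rw [Real.dist_eq]
  have e1 : fr (fun x : Om W k => ∀ i, GM W (V i) (pr1 W x.1) x.2) =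
      (∑ x : Fin k → Mu W, fr (fun α : prs (univ : Finset (Fin k)) → ZMod 2 =>
        ∀ i, GM W (V i) (pr1 W x) α)) / Nat.card (Fin k → Mu W) :=
    fr_prod (fun (x : Fin k → Mu W) (α : prs (univ : Finset (Fin k)) → ZMod 2) =>
      ∀ i, GM W (V i) (pr1 W x) α)
  rw [e1]
  refine lt_of_le_of_lt (avg_bd _ (Gx R') (fun _ => fr_nonneg _) (fun _ => fr_le_one _)
    (pow_nonneg hc.2.1.le M) (pow_le_one₀ hc.2.1.le hc.2.2.1.le) (show 0 ≤ ε / 3 by positivity)
    fun x hx => ?_) (by linarith)
  -- the good labels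
  set a := pr1 W x with ha
  set J1 := Js a with hJ1
  have hmem : ∀ i, i ∈ J1 ↔ (x i).1.1 = true := mem_Js x
  have hdelta : ∀ (u : W) (w : W → ZMod 2), ∑ v, w v * (if v = u then (1 : ZMod 2) else 0) = w u := by
    intro u w
    simp
  have hLA := hR W (Fin k) (ue W) J1 (by
      have h2 := hx ((false, 0), 0)
      have h3 : 0 < (univ.filter fun i => x i = ((false, 0), 0)).card := by omega
      obtain ⟨i, hi⟩ := card_pos.1 h3
      refine ⟨i, fun h => ?_⟩
      rw [hmem, (mem_filter.1 hi).2] at h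
      exact absurd h (by simp))
    (fun i => pt W (V i)) (fun u v : W => nr u v) (fun (u : W) l => (a l).2 u)
    (fun k (u : W) => (a k).2 u) (fun u : W => n4 u) (fun k => (a k).1.getD 0)
    (fun u _ v _ => by
      have h5 : (v : ℕ) ≠ 2 := by
        have := (hW v v.2).2
        intro h
        rw [h] at this
        omega
      exact Pool.Agent.R413.SQ.BOX.nr_symm (hW u u.2).1 (hW u u.2).2 (hW v v.2).1 h5)
    (fun u _ k _ => rfl)
    (fun w _ hw => by
      obtain ⟨u, hu⟩ := hw
      have h2 := hx ((true, 0), fun v => if v = u then 1 else 0)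
      have h3 : 0 < (univ.filter fun i => x i = ((true, 0), fun v => if v = u then 1 else 0)).card := by
        omega
      obtain ⟨i, hi⟩ := card_pos.1 h3
      have hi2 := (mem_filter.1 hi).2
      refine ⟨i, by rw [hmem, hi2], ?_⟩
      have h4 : (a i).2 = fun v => if v = u then 1 else 0 := by
        rw [ha]
        unfold pr1 pj
        rw [hi2]
      rw [h4, hdelta u w]
      exact hu)
    (by
      have h2 := many hx ((true, 0), 0) J1 (fun i hi => by rw [hmem, hi])
      omega)
    (fun i j hij => by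
      have hne : V i ≠ V j := fun h => hij (hVi h)
      obtain ⟨u, hu⟩ : ∃ u : W, ¬ ((u : ℕ) ∈ V i ↔ (u : ℕ) ∈ V j) := by
        by_contra hcon
        push Not at hcon
        apply hne
        ext u
        constructor
        · intro h
          exact (hcon ⟨u, hV i h⟩).1 h
        · intro h
          exact (hcon ⟨u, hV j h⟩).2 h
      have h2 := many hx ((true, 0), fun v => if v = u then 1 else 0)
        (J1.filter fun k => ∑ u ∈ pt W (V i), (a k).2 u + ∑ u ∈ pt W (V j), (a k).2 u ≠ 0)
        (fun k hk => by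
          have h4 : (a k).2 = fun v => if v = u then 1 else 0 := by
            rw [ha]
            unfold pr1 pj
            rw [hk]
          refine mem_filter.2 ⟨by rw [hmem, hk], ?_⟩
          rw [h4, sum_ite_eq', sum_ite_eq']
          unfold pt
          simp only [mem_filter, mem_univ, true_and]
          by_cases h6 : (u : ℕ) ∈ V i
          · have h7 : (u : ℕ) ∉ V j := fun h7 => hu ⟨fun _ => h7, fun _ => h6⟩
            rw [if_pos h6, if_neg h7, add_zero]
            exact one_ne_zero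
          · have h7 : (u : ℕ) ∈ V j := by
              by_contra h7
              exact hu ⟨fun h => absurd h h6, fun h => absurd h h7⟩
            rw [if_neg h6, if_pos h7, zero_add]
            exact one_ne_zero)
      omega)
  have e2 : fr (fun α : prs (univ : Finset (Fin k)) → ZMod 2 => ∀ i, GM W (V i) a α) =
      ((univ.filter fun α : prs J1 → ZMod 2 => ∀ i, GdM (pt W (V i)) (ue W) J1
        (fun u v : W => nr u v) (fun (u : W) l => (a l).2 u)
        (fun k (u : W) => (a k).2 u) (ext α) (fun u : W => n4 u) (fun k => (a k).1.getD 0)).card : ℝ) /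
        2 ^ (prs J1).card := by
    have h2 := fr_comp (rho J1) (rho_surj J1) (fun α : prs J1 → ZMod 2 => ∀ i,
      GdM (pt W (V i)) (ue W) J1 (fun u v : W => nr u v) (fun (u : W) l => (a l).2 u)
        (fun k (u : W) => (a k).2 u) (ext α) (fun u : W => n4 u) (fun k => (a k).1.getD 0))
    have h3 : fr (fun α : prs (univ : Finset (Fin k)) → ZMod 2 => ∀ i, GM W (V i) a α) =
        fr (fun α : prs (univ : Finset (Fin k)) → ZMod 2 => ∀ i,
          GdM (pt W (V i)) (ue W) J1 (fun u v : W => nr u v) (fun (u : W) l => (a l).2 u)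
            (fun k (u : W) => (a k).2 u) (ext (rho J1 α)) (fun u : W => n4 u)
            (fun k => (a k).1.getD 0)) := by
      congr 1
      funext α
      refine propext (forall_congr' fun i => ?_)
      unfold GM
      exact gdM_congr (fun _ _ _ => rfl) (fun k hk l => (ext_rho J1 α hk l).symm) (fun _ _ => rfl)
    rw [h3, h2]
    unfold fr
    rw [Nat.card_eq_fintype_card, Fintype.card_subtype, Nat.card_eq_fintype_card, Fintype.card_fun,
      ZMod.card, Fintype.card_coe]
    push_cast
    rfl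
  rw [e2]
  exact hLA

end Pool.Agent.H20PT.KP
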