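import Pool.Agent.H20PT.KP.Cnt

/-!
# The order of magnitude of the number of the tuples
-/

set_option autoImplicit false
set_option linter.unusedVariables false

open scoped Classical

namespace Pool.Agent.H20PT.KP

open Finset Filter Topology Asymptotics

/-- the order of magnitude -/
noncomputable def W (n : ℕ) (X : ℕ) : ℝ := X / Real.log X * Real.log (Real.log X) ^ n

theorem t_log : Tendsto (fun X : ℕ => Real.log (X : ℝ)) atTop atTop :=
  Real.tendsto_log_atTop.comp tendsto_natCast_atTop_atTop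

theorem t_ll : Tendsto (fun X : ℕ => Real.log (Real.log (X : ℝ))) atTop atTop :=
  Real.tendsto_log_atTop.comp t_log

theorem W_pos (n : ℕ) : ∀ᶠ X : ℕ in atTop, 0 < W n X := by
  filter_upwards [t_log.eventually_gt_atTop 0, t_ll.eventually_gt_atTop 0,
    eventually_gt_atTop 0] with X h1 h2 h3
  have : (0 : ℝ) < X := by exact_mod_cast h3
  unfold W
  positivity

theorem avoid {n : ℕ} (q : Fin n → ℕ) (A : Finset ℕ) :
    (A.card : ℝ) ≤ ((A.filter fun x => ∀ l, q l ≠ x).card : ℝ) + n := by
  have h1 := card_filter_add_card_filter_not (s := A) (fun x => ∀ l, q l ≠ x)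
  have h5 : (A.filter fun x => ¬ ∀ l, q l ≠ x) ⊆ univ.image q := by
    intro x hx
    rw [mem_filter] at hx
    have h6 := hx.2
    push Not at h6
    obtain ⟨l, hl⟩ := h6
    exact mem_image.2 ⟨l, mem_univ _, hl⟩
  have h7 := (card_le_card h5).trans card_image_le
  rw [card_univ, Fintype.card_fin] at h7
  have h8 : A.card ≤ (A.filter fun x => ∀ l, q l ≠ x).card + n := by omega
  exact_mod_cast h8

theorem fib1 (n X : ℕ) : (TT (n + 1) X).card =
    ∑ q ∈ TT n X, ((PP (X / ∏ l, q l)).filter fun x => ∀ l, q l ≠ x).card := by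
  have h := fib (0 : Fin (n + 1)) X (fun _ => True) (fun _ _ => True)
  simp only [and_true, filter_true] at h
  rw [h]

/-- the lower bound for the number of tuples -/
theorem lowT (n : ℕ) : ∃ c : ℝ, 0 < c ∧ ∀ᶠ X : ℕ in atTop, c * W n X ≤ ((TT (n + 1) X).card : ℝ) := by
  obtain ⟨c, Y₀, hc, hlow⟩ := low
  obtain ⟨C, hC, hmer⟩ := mer
  set a : ℝ := 1 / (2 * (n + 1)) with ha
  have ha0 : 0 < a := by positivity
  refine ⟨c / 4 * (1 / 4) ^ n, by positivity, ?_⟩
  have t1 : Tendsto (fun X : ℕ => (X : ℝ) ^ (a / 2)) atTop atTop :=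
    (tendsto_rpow_atTop (by positivity)).comp tendsto_natCast_atTop_atTop
  have t2 : Tendsto (fun X : ℕ => (X : ℝ) ^ (1 / 2 : ℝ)) atTop atTop :=
    (tendsto_rpow_atTop (by norm_num)).comp tendsto_natCast_atTop_atTop
  have t3 : ∀ᶠ X : ℕ in atTop, Real.log (X : ℝ) ≤ c / (4 * (n + 1)) * (X : ℝ) ^ (1 / 2 : ℝ) := by
    have h1 := (isLittleO_log_rpow_atTop (r := 1 / 2) (by norm_num)).def
      (show (0 : ℝ) < c / (4 * (n + 1)) by positivity)
    filter_upwards [tendsto_natCast_atTop_atTop.eventually h1,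
      tendsto_natCast_atTop_atTop.eventually (eventually_ge_atTop (1 : ℝ))] with X h2 h3
    rw [Real.norm_of_nonneg (Real.log_nonneg h3), Real.norm_of_nonneg (by positivity)] at h2
    exact h2
  filter_upwards [t1.eventually_ge_atTop 3, t2.eventually_ge_atTop ((Y₀ : ℝ) + 2), t3,
    t_ll.eventually_ge_atTop (4 * (n + C) - 2 * Real.log (a / 2)),
    t_ll.eventually_gt_atTop 0, eventually_ge_atTop 3, t_log.eventually_ge_atTop 1]
    with X h1 h2 h3 h4 h5 h6 h7
  have hX0 : (0 : ℝ) < X := by positivity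
  have hX1 : (1 : ℝ) ≤ X := by
    have : (3 : ℝ) ≤ X := by exact_mod_cast h6
    linarith
  have hlX : 0 < Real.log X := by linarith
  set Y : ℕ := ⌊(X : ℝ) ^ a⌋₊ with hY
  have hY1 : (Y : ℝ) ≤ (X : ℝ) ^ a := Nat.floor_le (by positivity)
  have hY2 : (X : ℝ) ^ (a / 2) ≤ Y := by
    have e1 : (X : ℝ) ^ a = (X : ℝ) ^ (a / 2) * (X : ℝ) ^ (a / 2) := by
      rw [← Real.rpow_add hX0]
      congr 1
      ring
    have e2 : (X : ℝ) ^ a < Y + 1 := Nat.lt_floor_add_one _
    nlinarith
  have hY3 : 3 ≤ Y := by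
    have : (3 : ℝ) ≤ Y := h1.trans hY2
    exact_mod_cast this
  have hY0 : (0 : ℝ) < Y := by positivity
  -- the sum over the inverses
  have hs : Real.log (Real.log X) / 4 ≤ s Y - n := by
    have e1 := (abs_le.1 (hmer Y hY3)).1
    have e2 : a / 2 * Real.log X ≤ Real.log Y := by
      rw [← Real.log_rpow hX0]
      exact Real.log_le_log (by positivity) hY2
    have e3 : Real.log (a / 2) + Real.log (Real.log X) ≤ Real.log (Real.log Y) := by
      rw [← Real.log_mul (by positivity) hlX.ne']
      exact Real.log_le_log (by positivity) e2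
    linarith
  have hs1 : (n : ℝ) ≤ s Y := by linarith
  have hI := In_low n hs1
  have hI2 : (Real.log (Real.log X) / 4) ^ n ≤ In n Y :=
    (pow_le_pow_left₀ (by positivity) hs n).trans hI
  -- the terms
  set A := (Fintype.piFinset fun _ : Fin n => PP Y).filter Function.Injective with hA
  have hq : ∀ q ∈ A, q ∈ TT n X ∧ c / 4 * ((X : ℝ) / Real.log X) * ∏ l, (1 : ℝ) / q l ≤
      (((PP (X / ∏ l, q l)).filter fun x => ∀ l, q l ≠ x).card : ℝ) := by
    intro q hq
    rw [hA, mem_filter, Fintype.mem_piFinset] at hq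
    obtain ⟨hq1, hq2⟩ := hq
    have hqP : ∀ l, Pr (q l) := fun l => (mem_PP.1 (hq1 l)).1
    have hm0 := prod_pos' hqP
    set m := ∏ l, q l with hm
    have hm1 : (1 : ℝ) ≤ m := by exact_mod_cast hm0
    have hm2 : (m : ℝ) ≤ (X : ℝ) ^ (1 / 2 : ℝ) := by
      calc (m : ℝ) = ∏ l, (q l : ℝ) := by rw [hm]; push_cast; rfl
        _ ≤ ∏ l : Fin n, (X : ℝ) ^ a := by
            refine prod_le_prod (fun _ _ => by positivity) fun l _ => ?_
            refine le_trans ?_ hY1
            exact_mod_cast (mem_PP.1 (hq1 l)).2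
        _ = ((X : ℝ) ^ a) ^ n := by rw [prod_const, card_univ, Fintype.card_fin]
        _ = (X : ℝ) ^ (a * n) := by rw [Real.rpow_mul hX0.le, Real.rpow_natCast]
        _ ≤ (X : ℝ) ^ (1 / 2 : ℝ) := by
            refine Real.rpow_le_rpow_of_exponent_le hX1 ?_
            rw [ha, one_div, inv_mul_le_iff₀ (by positivity)]
            linarith
    have hXX : (X : ℝ) ^ (1 / 2 : ℝ) * (X : ℝ) ^ (1 / 2 : ℝ) = X := by
      rw [← Real.rpow_add hX0]
      norm_num
    have hr0 : (0 : ℝ) < (X : ℝ) ^ (1 / 2 : ℝ) := by positivity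
    have hm3 : (X : ℝ) ^ (1 / 2 : ℝ) ≤ (X : ℝ) / m := by
      rw [le_div_iff₀ (by linarith)]
      nlinarith
    have hmX : m ≤ X := by
      have : (m : ℝ) ≤ X := by nlinarith
      exact_mod_cast this
    refine ⟨mem_TT.2 ⟨hqP, hq2, hmX⟩, ?_⟩
    have hf1 : (X : ℝ) / m < ((X / m : ℕ) : ℝ) + 1 := by
      rw [div_lt_iff₀ (by linarith)]
      have := Nat.lt_div_mul_add (a := X) hm0
      have h8 : X < (X / m + 1) * m := by nlinarith
      exact_mod_cast h8
    have hf2 : ((X / m : ℕ) : ℝ) ≤ X := by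
      exact_mod_cast Nat.div_le_self X m
    have hf3 : Y₀ ≤ X / m := by
      have : (Y₀ : ℝ) ≤ ((X / m : ℕ) : ℝ) := by linarith
      exact_mod_cast this
    have hf4 : (X : ℝ) / m / 2 ≤ ((X / m : ℕ) : ℝ) := by
      have : (0 : ℝ) ≤ Y₀ := Nat.cast_nonneg _
      linarith
    have hf5 : (1 : ℝ) < ((X / m : ℕ) : ℝ) ∨ ((X / m : ℕ) : ℝ) = 1 := by
      have : (0 : ℝ) < ((X / m : ℕ) : ℝ) := by
        have : (0 : ℝ) ≤ Y₀ := Nat.cast_nonneg _
        linarith
      have h8 : 0 < X / m := by exact_mod_cast this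
      rcases (by omega : X / m = 1 ∨ 1 < X / m) with h | h
      · right
        rw [h, Nat.cast_one]
      · left
        exact_mod_cast h
    have h8 := avoid q (PP (X / m))
    have h9 : c / 2 * ((X : ℝ) / m) / Real.log X ≤ ((PP (X / m)).card : ℝ) := by
      have hXm1 : (1 : ℝ) < ((X / m : ℕ) : ℝ) := by
        have : (0 : ℝ) ≤ Y₀ := Nat.cast_nonneg _
        have e1 : (2 : ℝ) ≤ (X : ℝ) / m := by linarith
        rcases hf5 with h | h
        · exact h
        · exfalso
          have h10 : (X : ℝ) ^ (1 / 2 : ℝ) ≤ 2 := by linarith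
          have h11 : (X : ℝ) ≤ 4 := by nlinarith
          have h12 : Y₀ = 0 := by
            have : (Y₀ : ℝ) ≤ 0 := by linarith
            exact_mod_cast le_antisymm this (Nat.cast_nonneg _)
          have h13 : (X : ℝ) ^ (1 / 2 : ℝ) < 2 := by linarith
          rw [h12] at h2
          norm_num at h2
          linarith
      have hl1 : 0 < Real.log ((X / m : ℕ) : ℝ) := Real.log_pos hXm1
      refine le_trans ?_ (hlow (X / m) hf3)
      rw [div_le_div_iff₀ hlX hl1]
      have e1 : Real.log ((X / m : ℕ) : ℝ) ≤ Real.log X := Real.log_le_log (by linarith) hf2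
      have e2 : (0 : ℝ) ≤ (X : ℝ) / m := by positivity
      calc c / 2 * ((X : ℝ) / m) * Real.log ((X / m : ℕ) : ℝ) ≤
            c * ((X / m : ℕ) : ℝ) * Real.log ((X / m : ℕ) : ℝ) := by
            refine mul_le_mul_of_nonneg_right ?_ hl1.le
            have := mul_le_mul_of_nonneg_left hf4 hc.le
            linarith
        _ ≤ c * ((X / m : ℕ) : ℝ) * Real.log X :=
            mul_le_mul_of_nonneg_left e1 (by positivity)
    have h10 : (n : ℝ) ≤ c / 4 * ((X : ℝ) / m) / Real.log X := by
      rw [le_div_iff₀ hlX]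
      calc (n : ℝ) * Real.log X ≤ (n + 1) * (c / (4 * (n + 1)) * (X : ℝ) ^ (1 / 2 : ℝ)) := by
            refine mul_le_mul (by linarith) h3 hlX.le (by positivity)
        _ = c / 4 * (X : ℝ) ^ (1 / 2 : ℝ) := by field_simp
        _ ≤ c / 4 * ((X : ℝ) / m) := mul_le_mul_of_nonneg_left hm3 (by positivity)
    have h11 : ∏ l, (1 : ℝ) / q l = 1 / m := by
      rw [prod_div_distrib, prod_const_one, hm]
      push_cast
      rfl
    rw [h11]
    have h12 : c / 4 * ((X : ℝ) / Real.log X) * (1 / m) = c / 2 * ((X : ℝ) / m) / Real.log X -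
        c / 4 * ((X : ℝ) / m) / Real.log X := by
      field_simp
      ring
    rw [h12]
    linarith
  have hmain : c / 4 * ((X : ℝ) / Real.log X) * In n Y ≤ ((TT (n + 1) X).card : ℝ) := by
    rw [fib1]
    push_cast
    unfold In
    rw [mul_sum]
    refine (sum_le_sum fun q hq' => (hq q hq').2).trans ?_
    exact sum_le_sum_of_subset_of_nonneg (fun q hq' => (hq q hq').1) fun _ _ _ => Nat.cast_nonneg _
  refine le_trans ?_ hmain
  unfold W
  have e : c / 4 * (1 / 4) ^ n * ((X : ℝ) / Real.log X * Real.log (Real.log X) ^ n) =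
      c / 4 * ((X : ℝ) / Real.log X) * (Real.log (Real.log X) / 4) ^ n := by
    rw [div_pow, div_pow, one_pow]
    ring
  rw [e]
  exact mul_le_mul_of_nonneg_left hI2 (by positivity)

/-- the upper bound -/
theorem upW (n : ℕ) : ∃ C : ℝ, 0 < C ∧ ∀ᶠ X : ℕ in atTop, ((TT (n + 1) X).card : ℝ) ≤ C * W n X := by
  obtain ⟨C, hC, hmer⟩ := mer
  refine ⟨5 * (n + 1) ^ 2, by positivity, ?_⟩
  filter_upwards [t_ll.eventually_ge_atTop (2 * C), eventually_ge_atTop 3,
    t_log.eventually_gt_atTop 0, t_ll.eventually_gt_atTop 0] with X h1 h2 h3 h4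
  refine (upT n (by omega)).trans ?_
  have h5 : s X ≤ Real.log (Real.log X) := by
    have := (abs_le.1 (hmer X h2)).2
    linarith
  unfold W
  have hX : (0 : ℝ) < X := by positivity
  rw [mul_assoc]
  refine mul_le_mul_of_nonneg_left ?_ (by positivity)
  exact mul_le_mul_of_nonneg_left (pow_le_pow_left₀ (s_nonneg X) h5 n) (by positivity)

/-- the numbers of the tuples of different lengths are of different orders -/
theorem negl (n : ℕ) : Tendsto (fun X : ℕ => ((TT n X).card : ℝ) / W n X) atTop (𝓝 0) := by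
  rcases n with _ | n
  · have h1 : Tendsto (fun X : ℕ => Real.log (X : ℝ) / X) atTop (𝓝 0) := by
      have := (Real.isLittleO_log_id_atTop.tendsto_div_nhds_zero).comp
        (tendsto_natCast_atTop_atTop (R := ℝ))
      exact this
    refine squeeze_zero' ?_ ?_ h1
    · filter_upwards [W_pos 0] with X h
      exact div_nonneg (Nat.cast_nonneg _) h.le
    · filter_upwards [t_log.eventually_gt_atTop 0, eventually_gt_atTop 0] with X h1 h2
      have hX : (0 : ℝ) < X := by exact_mod_cast h2
      have h3 : ((TT 0 X).card : ℝ) ≤ 1 := by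
        have : (TT 0 X).card ≤ 1 := card_le_one.2 fun a _ b _ => Subsingleton.elim _ _
        exact_mod_cast this
      unfold W
      rw [pow_zero, mul_one, div_div_eq_mul_div, div_le_div_iff_of_pos_right hX]
      nlinarith
  · obtain ⟨C, hC, h⟩ := upW n
    have h1 : Tendsto (fun X : ℕ => C * (Real.log (Real.log (X : ℝ)))⁻¹) atTop (𝓝 0) := by
      have := (tendsto_inv_atTop_zero.comp t_ll).const_mul C
      rw [mul_zero] at this
      exact this
    refine squeeze_zero' ?_ ?_ h1
    · filter_upwards [W_pos (n + 1)] with X h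
      exact div_nonneg (Nat.cast_nonneg _) h.le
    · filter_upwards [h, W_pos (n + 1), t_ll.eventually_gt_atTop 0] with X h2 h3 h4
      rw [div_le_iff₀ h3]
      refine h2.trans (le_of_eq ?_)
      unfold W
      rw [pow_succ]
      field_simp

theorem W_mono (n : ℕ) : ∀ᶠ X : ℕ in atTop, (X : ℝ) / Real.log X ≤ W n X := by
  filter_upwards [t_log.eventually_gt_atTop 0, t_ll.eventually_ge_atTop 1] with X h1 h2
  unfold W
  exact le_mul_of_one_le_right (by positivity) (one_le_pow₀ h2)

/-- few tuples have a small entry -/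
theorem small (n : ℕ) (z : ℕ → ℕ) (B : ℕ) (hz : ∀ᶠ X : ℕ in atTop, (z X : ℝ) ≤ Real.log X ^ B) :
    Tendsto (fun X : ℕ => (((TT (n + 1) X).filter fun p => ∃ j, p j ≤ z X).card : ℝ) / W n X)
      atTop (𝓝 0) := by
  obtain ⟨C, hC, hmer⟩ := mer
  -- the majorant
  have l3 : Tendsto (fun X : ℕ => Real.log (Real.log (Real.log (X : ℝ))) /
      Real.log (Real.log (X : ℝ))) atTop (𝓝 0) := by
    have := (Real.isLittleO_log_id_atTop.tendsto_div_nhds_zero).comp t_ll
    exact this
  have l4 : Tendsto (fun X : ℕ => (Real.log (Real.log (X : ℝ)))⁻¹) atTop (𝓝 0) :=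
    tendsto_inv_atTop_zero.comp t_ll
  have l5 : Tendsto (fun X : ℕ => Real.log (X : ℝ) ^ (B * (n + 1) + 1) / X) atTop (𝓝 0) := by
    have h1 := (Real.isLittleO_pow_log_id_atTop (n := B * (n + 1) + 1)).tendsto_div_nhds_zero.comp
      (tendsto_natCast_atTop_atTop (R := ℝ))
    exact h1
  set K : ℝ := 5 * (n + 1) ^ 2 * n with hK
  have hK0 : 0 ≤ K := by positivity
  have hmaj : Tendsto (fun X : ℕ => K * (Real.log (Real.log (Real.log (X : ℝ))) /
      Real.log (Real.log (X : ℝ)) + (Real.log (B + 1) + C + s 3) * (Real.log (Real.log (X : ℝ)))⁻¹) +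
      Real.log (X : ℝ) ^ (B * (n + 1) + 1) / X) atTop (𝓝 0) := by
    have := ((l3.add (l4.const_mul (Real.log (B + 1) + C + s 3))).const_mul K).add l5
    simpa using this
  refine squeeze_zero' ?_ ?_ hmaj
  · filter_upwards [W_pos n] with X h
    exact div_nonneg (Nat.cast_nonneg _) h.le
  · filter_upwards [hz, W_pos n, t_log.eventually_gt_atTop 1, t_ll.eventually_ge_atTop 1,
      t_ll.eventually_ge_atTop (2 * C), eventually_ge_atTop 3, W_mono n] with X h1 h2 h3 h4 h5 h6 h7
    have hX : (0 : ℝ) < X := by positivity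
    have hlX : 0 < Real.log X := by linarith
    have hsX : s X ≤ Real.log (Real.log X) := by
      have := (abs_le.1 (hmer X h6)).2
      linarith
    have hll : 0 < Real.log (Real.log X) := by linarith
    have hlll : 0 ≤ Real.log (Real.log (Real.log X)) := Real.log_nonneg h4
    have hB0 : (0 : ℝ) ≤ Real.log (B + 1) := Real.log_nonneg (by
      have : (0 : ℝ) ≤ B := Nat.cast_nonneg _
      linarith)
    have hsz : s (z X) ≤ Real.log (Real.log (Real.log X)) + (Real.log (B + 1) + C + s 3) := by
      rcases le_or_gt 3 (z X) with hz3 | hz3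
      · have e1 := (abs_le.1 (hmer (z X) hz3)).2
        have hz1 : (1 : ℝ) < z X := by
          have : (3 : ℝ) ≤ z X := by exact_mod_cast hz3
          linarith
        have e2 : Real.log (z X) ≤ (B + 1) * Real.log (Real.log X) := by
          have e3 := Real.log_le_log (by linarith) h1
          rw [Real.log_pow] at e3
          linarith
        have e4 : Real.log (Real.log (z X)) ≤ Real.log (B + 1) + Real.log (Real.log (Real.log X)) := by
          rw [← Real.log_mul (by positivity) hll.ne']
          exact Real.log_le_log (Real.log_pos hz1) e2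
        have e5 := s_nonneg 3
        linarith
      · have e1 := s_mono hz3.le
        linarith
    refine (div_le_iff₀ h2).2 ((upS n (by omega)).trans ?_)
    rw [add_mul]
    refine add_le_add ?_ ?_
    · rcases n with _ | m
      · rw [hK]
        simp
      · have e1 : s (z X) * s X ^ m ≤ (Real.log (Real.log (Real.log X)) + (Real.log (B + 1) + C + s 3)) *
            Real.log (Real.log X) ^ m :=
          mul_le_mul hsz (pow_le_pow_left₀ (s_nonneg X) hsX m) (pow_nonneg (s_nonneg X) m)
            (by have := s_nonneg 3; positivity)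
        rw [Nat.add_sub_cancel]
        have e2 : K * (Real.log (Real.log (Real.log (X : ℝ))) / Real.log (Real.log (X : ℝ)) +
            (Real.log (B + 1) + C + s 3) * (Real.log (Real.log (X : ℝ)))⁻¹) * W (m + 1) X =
            K * ((X : ℝ) / Real.log X) * ((Real.log (Real.log (Real.log X)) +
              (Real.log (B + 1) + C + s 3)) * Real.log (Real.log X) ^ m) := by
          unfold W
          rw [pow_succ]
          field_simp
        rw [e2]
        exact mul_le_mul_of_nonneg_left e1 (by positivity)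
    · have e1 : (z X : ℝ) ^ (n + 1) ≤ Real.log X ^ (B * (n + 1)) := by
        rw [pow_mul]
        exact pow_le_pow_left₀ (Nat.cast_nonneg _) h1 _
      refine e1.trans ?_
      have e2 : Real.log (X : ℝ) ^ (B * (n + 1)) = Real.log (X : ℝ) ^ (B * (n + 1) + 1) / X *
          ((X : ℝ) / Real.log X) := by
        rw [pow_succ]
        field_simp
      rw [e2]
      exact mul_le_mul_of_nonneg_left h7 (by positivity)

end Pool.Agent.H20PT.KP
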