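import Mathlib
import Pool.Agent.Y219.CQ.LA
import Pool.Agent.Y839.CQ.SYM
import Pool.Agent.Y948.CQ.C2

/-!
# Random principal minors of random symmetric matrices over the field with two elements
-/

set_option autoImplicit false
set_option linter.unusedVariables false

open scoped Classical

namespace Pool.Agent.H20PT.KP

open Function Module Finset
open Pool.Agent.Y759.CX (fr fr_equiv fr_comp fr_prod fr_nonneg fr_le_one fr_mono)
open Pool.Agent.Y703.CQ (S_SYM S_C2 c2 prs ext)
open Pool.Agent.Y219.CQ (F Sy Ns sp bf bf_apply bf_l bf_r bf_symm bf_add bf_single all_zero zx zx_of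
  zx_not sum_zx mem_prs ext_self ext_pos ext_neg ext_symm ext_add char2 fr_Ns)

variable {J : Type} [Fintype J] [LinearOrder J]

/-- the system has only the zero solution -/
def NS (J1 : Finset J) (R : J → J → F) (g : J → F) : Prop :=
  ∀ y : J → F, (∀ k, k ∉ J1 → y k = 0) →
    (∀ k ∈ J1, ∑ l, R k l * (y l + y k) + g k * y k = 0) → ∀ l, y l = 0

/-- the matrix of the system -/
noncomputable def mm (J1 : Finset J) (α : prs (univ : Finset J) → F) (g : J → F) (k l : J1) : F :=
  ext α k l + if k = l then ∑ l' : J, ext α k l' + g k else 0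

theorem ext_symm' (α : prs (univ : Finset J) → F) (k l : J) : ext α k l = ext α l k :=
  ext_symm univ α (mem_univ _) (mem_univ _)

theorem mm_symm (J1 : Finset J) (α : prs (univ : Finset J) → F) (g : J → F) (k l : J1) :
    mm J1 α g k l = mm J1 α g l k := by
  unfold mm
  by_cases h : k = l
  · rw [h]
  · rw [if_neg h, if_neg (Ne.symm h), ext_symm' α]

theorem row (J1 : Finset J) (α : prs (univ : Finset J) → F) (g : J → F) (y : J1 → F) (l : J1) :
    ∑ k, ext α l k * (zx J1 y k + zx J1 y l) + g l * zx J1 y l = ∑ k, y k * mm J1 α g k l := by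
  simp only [mul_add, sum_add_distrib, sum_zx, zx_of]
  have h1 : ∑ k, y k * mm J1 α g k l = ∑ k : J1, ext α l k * y k +
      (∑ k : J, ext α l k + g l) * y l := by
    unfold mm
    simp only [mul_add, sum_add_distrib]
    congr 1
    · exact sum_congr rfl fun k _ => by rw [ext_symm' α, mul_comm]
    · rw [sum_eq_single l]
      · rw [if_pos rfl]
        ring
      · intro u _ hu
        rw [if_neg hu, mul_zero]
      · intro h
        exact absurd (mem_univ _) h
  rw [h1, ← sum_mul]
  ring

theorem ns_iff (J1 : Finset J) (α : prs (univ : Finset J) → F) (g : J → F) :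
    NS J1 (ext α) g ↔ Ns (bf (mm J1 α g)) := by
  unfold NS Ns
  constructor
  · intro h x hx
    have h2 := h (zx J1 x) (fun k hk => zx_not J1 x hk) (fun k hk => by
      rw [row J1 α g x ⟨k, hk⟩]
      exact all_zero (fun l : J1 => ∑ i, x i * mm J1 α g i l) (fun y => by
        rw [← bf_l]
        exact hx y) ⟨k, hk⟩)
    funext k
    rw [← zx_of J1 x k, h2]
    rfl
  · intro h y hy h1 l
    have e2 : zx J1 (fun u => y u) = y := by
      funext u
      by_cases hu : u ∈ J1
      · exact zx_of J1 (fun u => y u) ⟨u, hu⟩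
      · rw [zx_not J1 _ hu, hy u hu]
    have h3 := h (fun u => y u) (fun z => by
      rw [bf_l]
      refine sum_eq_zero fun k _ => ?_
      rw [← row J1 α g, e2, h1 k k.2, zero_mul])
    by_cases hl : l ∈ J1
    · exact congrFun h3 ⟨l, hl⟩
    · exact hy l hl

/-- the parametrisation -/
noncomputable def pa (J1 : Finset J) : ((J → F) × (prs (univ : Finset J) → F)) →+ Sy (J1 → F) where
  toFun x := ⟨bf (mm J1 x.2 x.1), bf_symm _ (mm_symm J1 x.2 x.1)⟩
  map_zero' := by
    refine Subtype.ext ?_
    show bf (mm J1 0 0) = 0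
    refine LinearMap.ext fun x => LinearMap.ext fun y => ?_
    rw [bf_apply]
    show _ = (0 : F)
    refine sum_eq_zero fun i _ => sum_eq_zero fun k _ => ?_
    have h0 : ∀ a b, ext (0 : prs (univ : Finset J) → F) a b = 0 := by
      intro a b
      have h1 := ext_add univ (0 : prs (univ : Finset J) → F) 0 a b
      rw [add_zero] at h1
      exact left_eq_add.1 h1
    have h : mm J1 (0 : prs (univ : Finset J) → F) 0 i k = 0 := by
      unfold mm
      simp only [h0, sum_const_zero, Pi.zero_apply, add_zero, ite_self]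
    rw [h, mul_zero, zero_mul]
  map_add' α β := by
    refine Subtype.ext ?_
    show bf (mm J1 (α.2 + β.2) (α.1 + β.1)) = bf (mm J1 α.2 α.1) + bf (mm J1 β.2 β.1)
    rw [← bf_add]
    congr 1
    funext k l
    unfold mm
    simp only [ext_add, sum_add_distrib, Pi.add_apply]
    by_cases h : k = l
    · simp only [if_pos h]
      ring
    · simp only [if_neg h, add_zero]

theorem pa_surj (J1 : Finset J) : Surjective (pa J1) := by
  intro T
  obtain ⟨D, hD⟩ : ∃ D : J → J → F, D = fun k l => if h : k ∈ J1 ∧ l ∈ J1 then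
    T.1 (Pi.single ⟨k, h.1⟩ 1) (Pi.single ⟨l, h.2⟩ 1) else 0 := ⟨_, rfl⟩
  have hD1 : ∀ k l : J1, D k l = T.1 (Pi.single k 1) (Pi.single l 1) := by
    intro k l
    rw [hD]
    simp only
    rw [dif_pos ⟨k.2, l.2⟩]
  have hDs : ∀ k l : J, k ∈ J1 → l ∈ J1 → D k l = D l k := by
    intro k l hk hl
    have h1 := hD1 ⟨k, hk⟩ ⟨l, hl⟩
    have h2 := hD1 ⟨l, hl⟩ ⟨k, hk⟩
    have h3 := T.2 (Pi.single ⟨k, hk⟩ 1) (Pi.single ⟨l, hl⟩ 1)
    exact h1.trans (h3.trans h2.symm)
  obtain ⟨α, hα⟩ : ∃ α : prs (univ : Finset J) → F, α = fun e => D e.1.1 e.1.2 := ⟨_, rfl⟩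
  have e1 : ∀ k l, k ∈ J1 → l ∈ J1 → k ≠ l → ext α k l = D k l := by
    intro k l hk hl hkl
    rcases lt_or_gt_of_ne hkl with h | h
    · rw [ext_pos univ α ((mem_prs univ k l).2 ⟨mem_univ _, h.ne', fun _ => h⟩), hα]
    · rw [ext_neg univ α ((mem_prs univ l k).2 ⟨mem_univ _, h.ne', fun _ => h⟩) (mem_univ _), hα,
        hDs k l hk hl]
  refine ⟨(fun k => D k k + ∑ l' : J, ext α k l', α), Subtype.ext ?_⟩
  show bf (mm J1 α fun k => D k k + ∑ l' : J, ext α k l') = T.1
  refine LinearMap.ext_basis (Pi.basisFun F J1) (Pi.basisFun F J1) fun k l => ?_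
  rw [Pi.basisFun_apply, Pi.basisFun_apply, bf_single, ← hD1]
  unfold mm
  by_cases h : k = l
  · rw [if_pos h, ← h, ext_self, zero_add, add_left_comm, char2, add_zero]
  · rw [if_neg h, add_zero]
    exact e1 k l k.2 l.2 fun h' => h (Subtype.ext h')

/-- the probability of the principal minor -/
theorem fr_NS (J1 : Finset J) :
    fr (fun x : (J → F) × (prs (univ : Finset J) → F) => NS J1 (ext x.2) x.1) = sp J1.card := by
  have h1 := fr_comp (pa J1) (pa_surj J1) (fun S => Ns S.1)
  have h2 := fr_Ns (V := J1 → F) Pool.Agent.Y839.CQ.t_SYM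
  rw [finrank_fintype_fun_eq_card, Fintype.card_coe] at h2
  rw [← h2, ← h1]
  congr 1
  funext x
  exact propext (ns_iff J1 x.2 x.1)

/-- the limit proportion for the numbers with `k` prime factors -/
noncomputable def Pk (k : ℕ) : ℝ := (∑ j ∈ range (k + 1), (k.choose j : ℝ) * sp j) / 2 ^ k

theorem fr_all (k : ℕ) : fr (fun x : (Fin k → Bool) × ((Fin k → F) × (prs (univ : Finset (Fin k)) → F)) =>
    NS (univ.filter fun i => x.1 i = true) (ext x.2.2) x.2.1) = Pk k := by
  rw [fr_prod fun (b : Fin k → Bool) (x : (Fin k → F) × (prs (univ : Finset (Fin k)) → F)) =>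
    NS (univ.filter fun i => b i = true) (ext x.2) x.1]
  unfold Pk
  congr 1
  · simp only [fr_NS]
    have h1 : ∑ b : Fin k → Bool, sp (univ.filter fun i => b i = true).card =
        ∑ S ∈ (univ : Finset (Fin k)).powerset, sp S.card := by
      refine sum_nbij' (fun b => univ.filter fun i => b i = true) (fun S i => decide (i ∈ S))
        ?_ ?_ ?_ ?_ ?_
      · intro b _
        exact mem_powerset.2 (filter_subset _ _)
      · intro S _
        exact mem_univ _
      · intro b _
        funext i
        simp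
      · intro S _
        ext i
        simp
      · intro b _
        rfl
    rw [h1, sum_powerset_apply_card (fun j => sp j), card_univ, Fintype.card_fin]
    simp only [nsmul_eq_mul]
  · rw [Nat.card_eq_fintype_card]
    simp

end Pool.Agent.H20PT.KP
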