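import Pool.Agent.H20PT.KP.Lab49
import Pool.Agent.H20PT.KP.Nons
import Pool.Agent.R413.SM.S1
import Pool.Agent.Y697.JQ.LA

/-!
# The criterion for a twist in terms of the labels and of the symbols
-/

set_option autoImplicit false
set_option linter.unusedVariables false

open scoped Classical

namespace Pool.Agent.H20PT.KP

open Function Finset Filter Topology
open Pool.Agent.Y703.CQ (nr prs ext c2)
open Pool.Agent.Y698.SG (n4)
open Pool.Agent.R413.SQ (Gd)
open Pool.Agent.R413.SQ.SM (ue gdM_iff)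
open Pool.Agent.R413.SQ.BOX (nr_self nr_symm)
open Pool.Agent.Y687.JQ (GdM)
open Pool.Agent.Y697.JQ (pt)
open Pool.Agent.Y219.CQ (F mem_prs ext_self ext_pos ext_neg ext_symm ext_add)

variable {n : ℕ} {W : Finset ℕ}

/-- the split indices -/
noncomputable def Js {k : ℕ} (a : Fin k → La W) : Finset (Fin k) := univ.filter fun i => (a i).1 ≠ none

/-- the criterion in terms of the labels and of the symbols, for the mask `V` -/
def GM {k : ℕ} (W V : Finset ℕ) (a : Fin k → La W) (α : prs (univ : Finset (Fin k)) → ZMod 2) : Prop :=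
  GdM (pt W V) (ue W) (Js a) (fun u v : W => nr u v) (fun (u : W) l => (a l).2 u)
    (fun k (u : W) => (a k).2 u) (ext α) (fun u : W => n4 u) (fun k => (a k).1.getD 0)

theorem gdM_congr {U J : Type} [Fintype U] [Fintype J] {m U1 : Finset U} {J1 : Finset J}
    {A : U → U → ZMod 2} {B : U → J → ZMod 2} {C C' : J → U → ZMod 2} {R R' : J → J → ZMod 2}
    {f : U → ZMod 2} {g g' : J → ZMod 2} (hC : ∀ k ∈ J1, ∀ u, C k u = C' k u)
    (hR : ∀ k ∈ J1, ∀ l, R k l = R' k l) (hg : ∀ k ∈ J1, g k = g' k) :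
    GdM m U1 J1 A B C R f g ↔ GdM m U1 J1 A B C' R' f g' := by
  unfold GdM
  refine forall₂_congr fun x y => imp_congr Iff.rfl (imp_congr Iff.rfl (imp_congr Iff.rfl
    (imp_congr Iff.rfl (imp_congr ?_ Iff.rfl))))
  refine forall₂_congr fun k hk => ?_
  simp only [hC k hk, hR k hk, hg k hk]

theorem ext_sy {p : Fin (n + 1) → ℕ} (hp : ∀ i, Pr (p i)) (k l : Fin (n + 1)) :
    ext (sy p) k l = nr (p k) (p l) := by
  rcases lt_trichotomy k l with h | h | h
  · rw [ext_pos univ (sy p) ((mem_prs univ k l).2 ⟨mem_univ _, h.ne', fun _ => h⟩)]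
    rfl
  · rw [h, ext_self, nr_self]
  · rw [ext_neg univ (sy p) ((mem_prs univ l k).2 ⟨mem_univ _, h.ne', fun _ => h⟩) (mem_univ _)]
    have h5 : p k ≠ 2 := by
      have := (hp k).five
      omega
    exact nr_symm (hp l).1 (hp l).2 (hp k).1 h5

/-- **the criterion** -/
theorem crit (hW : ∀ u ∈ W, u.Prime ∧ u % 4 = 1) {V : Finset ℕ} (hV : V ⊆ W) {p : Fin (n + 1) → ℕ}
    (hi : Injective p) (hp : ∀ i, Pr (p i)) (hd : ∀ i, p i ∉ W) :
    Gd n4 (V ∪ univ.image p) ↔ GM W V (fun i => lab W (p i)) (sy p) := by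
  have hJ : ∀ i, R413.SQ.mk (p i) = 1 ↔ i ∈ Js (fun i => lab W (p i)) := by
    intro i
    unfold Js lab
    rw [mem_filter]
    by_cases h : R413.SQ.mk (p i) = 1
    · simp [h]
    · simp [h]
  have h1 := gdM_iff (f := n4) (T := V) (S₁ := W) hV hi
    (fun i => ⟨hp i, by have := (hp i).five; omega⟩) hd hJ
  rw [h1]
  unfold GM
  have key : ∀ k ∈ Js (fun i => lab W (p i)), ∀ l,
      ext (fun e : prs (Js fun i => lab W (p i)) => nr (p e.1.1) (p e.1.2)) k l =
        ext (sy p) k l := by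
    intro k hk l
    rw [ext_sy hp]
    rcases lt_trichotomy k l with h | h | h
    · rw [ext_pos _ _ ((mem_prs _ k l).2 ⟨hk, h.ne', fun _ => h⟩)]
    · rw [h, ext_self, nr_self]
    · by_cases hl : l ∈ Js (fun i => lab W (p i))
      · rw [ext_neg _ _ ((mem_prs _ l k).2 ⟨hl, h.ne', fun _ => h⟩) hk]
        have h5 : p k ≠ 2 := by
          have := (hp k).five
          omega
        exact nr_symm (hp l).1 (hp l).2 (hp k).1 h5
      · rw [ext_pos _ _ ((mem_prs _ k l).2 ⟨hk, h.ne, fun h' => absurd h' hl⟩)]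
  refine gdM_congr (fun k _ u => ?_) key (fun k hk => ?_)
  · exact nr_symm (hp k).1 (hp k).2 (hW u u.2).1 (by
      have := (hW u u.2).2
      intro h
      rw [h] at this
      omega)
  · have := (hJ k).2 hk
    unfold lab
    simp [this]

/-- without a mask only the principal minor matters -/
theorem gm_empty {k : ℕ} (a : Fin k → La W) (α : prs (univ : Finset (Fin k)) → ZMod 2) :
    GM W ∅ a α ↔ NS (Js a) (ext α) (fun k => (a k).1.getD 0) := by
  have hpt : pt W ∅ = ∅ := by
    ext u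
    unfold pt
    simp
  unfold GM GdM NS
  simp only [hpt, notMem_empty, sum_empty, zero_add, not_false_eq_true, forall_const,
    IsEmpty.forall_iff, implies_true]
  constructor
  · intro h y hy h1
    exact (h (fun _ => 0) y (fun _ => fun _ => rfl) (fun _ => rfl) hy h1).2
  · intro h x y _ hx hy h1
    exact ⟨hx, h y hy h1⟩

end Pool.Agent.H20PT.KP
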