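import Pool.Agent.H20PT.KP.Reg

/-!
# The joint law of the labels and the symbols of the tuples; the numbers with `k` prime factors
-/

set_option autoImplicit false
set_option linter.unusedVariables false

open scoped Classical

namespace Pool.Agent.H20PT.KP

open Finset Filter Topology
open Pool.Agent.Y703.CQ (nr prs)

theorem Ng.ratio {n : ℕ} {f : ℕ → ℝ} {δ : ℝ}
    (h : Ng n fun X => f X - δ * ((TT (n + 1) X).card : ℝ)) :
    Tendsto (fun X : ℕ => f X / ((TT (n + 1) X).card : ℝ)) atTop (𝓝 δ) := by
  obtain ⟨c, hc, hlow⟩ := lowT n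
  have h1 : Tendsto (fun X : ℕ => f X / ((TT (n + 1) X).card : ℝ) - δ) atTop (𝓝 0) := by
    unfold Ng at h
    have h2 : Tendsto (fun X : ℕ => c⁻¹ * |(f X - δ * ((TT (n + 1) X).card : ℝ)) / W n X|) atTop
        (𝓝 0) := by
      have := (h.abs).const_mul c⁻¹
      simpa using this
    refine squeeze_zero_norm' ?_ h2
    filter_upwards [hlow, W_pos n] with X h3 h4
    have h5 : (0 : ℝ) < ((TT (n + 1) X).card : ℝ) := lt_of_lt_of_le (by positivity) h3
    have e : f X / ((TT (n + 1) X).card : ℝ) - δ =
        (f X - δ * ((TT (n + 1) X).card : ℝ)) / ((TT (n + 1) X).card : ℝ) := by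
      field_simp
    rw [e, Real.norm_eq_abs, abs_div, abs_div, abs_of_pos h5, abs_of_pos h4]
    rw [← div_eq_inv_mul, div_div, mul_comm (W n X) c]
    exact div_le_div_of_nonneg_left (abs_nonneg _) (by positivity) h3
  have h2 := h1.add_const δ
  simpa using h2

/-- **the joint law of the labels and of the symbols** -/
theorem law {n : ℕ} {Λ : Type} [Fintype Λ] (lab : ℕ → Λ) (μ : Λ → ℝ)
    (h : ∀ a, Dn (fun p => lab p = a) (μ a))
    (Q : (Fin (n + 1) → Λ) → (prs (univ : Finset (Fin (n + 1))) → ZMod 2) → Prop) :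
    Tendsto (fun X : ℕ => (((TT (n + 1) X).filter fun p => Q (fun i => lab (p i)) (sy p)).card : ℝ) /
      ((TT (n + 1) X).card : ℝ)) atTop
      (𝓝 (∑ a : Fin (n + 1) → Λ, (∏ i, μ (a i)) * (((univ.filter (Q a)).card : ℝ) / 2 ^ np n))) := by
  apply Ng.ratio
  have h1 : ∀ a ∈ (univ : Finset (Fin (n + 1) → Λ)), Ng n fun X =>
      (((TT (n + 1) X).filter fun p => (∀ i, lab (p i) = a i) ∧ Q a (sy p)).card : ℝ) -
        ((∏ i, μ (a i)) * (((univ.filter (Q a)).card : ℝ) / 2 ^ np n)) *
          ((TT (n + 1) X).card : ℝ) := by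
    intro a _
    have h2 := symbols (fun i p => lab p = a i) (Q a)
    have h3 := labels (L := fun i p => lab p = a i) (μ := fun i => μ (a i)) (fun i => h (a i)) univ
    have h4 := h2.add (h3.const_mul (((univ.filter (Q a)).card : ℝ) / 2 ^ np n))
    refine h4.congr fun X => ?_
    have e : (TT (n + 1) X).filter (fun p => ∀ i ∈ (univ : Finset (Fin (n + 1))), lab (p i) = a i) =
        (TT (n + 1) X).filter fun p => ∀ i, lab (p i) = a i := by
      refine filter_congr fun p _ => ?_
      simp
    rw [e]
    ring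
  refine (Ng.sum univ h1).congr fun X => ?_
  rw [sum_sub_distrib, ← sum_mul]
  congr 1
  have h2 : ((TT (n + 1) X).filter fun p => Q (fun i => lab (p i)) (sy p)).card =
      ∑ a : Fin (n + 1) → Λ,
        ((TT (n + 1) X).filter fun p => (∀ i, lab (p i) = a i) ∧ Q a (sy p)).card := by
    rw [card_eq_sum_card_fiberwise (f := fun p i => lab (p i)) (t := univ)
      (fun _ _ => mem_coe.2 (mem_univ _))]
    refine sum_congr rfl fun a _ => ?_
    congr 1
    ext p
    simp only [mem_filter, funext_iff]
    constructor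
    · rintro ⟨⟨h3, h4⟩, h5⟩
      refine ⟨h3, h5, ?_⟩
      have : (fun i => lab (p i)) = a := funext h5
      rwa [this] at h4
    · rintro ⟨h3, h4, h5⟩
      refine ⟨⟨h3, ?_⟩, h4⟩
      have : (fun i => lab (p i)) = a := funext h4
      rwa [this]
  rw [h2]
  push_cast
  rfl

/-- **the joint law, with uniform labels** -/
theorem lawU {n : ℕ} {Λ M : Type} [Fintype Λ] [Fintype M] [Nonempty M] (lab : ℕ → Λ) (π : M → Λ)
    (h : ∀ a, Dn (fun p => lab p = a) (((univ.filter fun y => π y = a).card : ℝ) / Fintype.card M))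
    (Q : (Fin (n + 1) → Λ) → (prs (univ : Finset (Fin (n + 1))) → ZMod 2) → Prop) :
    Tendsto (fun X : ℕ => (((TT (n + 1) X).filter fun p => Q (fun i => lab (p i)) (sy p)).card : ℝ) /
      ((TT (n + 1) X).card : ℝ)) atTop
      (𝓝 (((univ.filter fun x : (Fin (n + 1) → M) × (prs (univ : Finset (Fin (n + 1))) → ZMod 2) =>
        Q (fun i => π (x.1 i)) x.2).card : ℝ) /
        (Fintype.card M ^ (n + 1) * 2 ^ np n))) := by
  have h1 := law (n := n) lab _ h Q
  convert h1 using 2
  have hM : (0 : ℝ) < Fintype.card M := by exact_mod_cast Fintype.card_pos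
  have h2 : (univ.filter fun x : (Fin (n + 1) → M) × (prs (univ : Finset (Fin (n + 1))) → ZMod 2) =>
      Q (fun i => π (x.1 i)) x.2).card = ∑ a : Fin (n + 1) → Λ,
        (∏ i, (univ.filter fun y => π y = a i).card) * (univ.filter (Q a)).card := by
    rw [card_eq_sum_card_fiberwise (f := fun x i => π (x.1 i)) (t := univ)
      (fun _ _ => mem_coe.2 (mem_univ _))]
    refine sum_congr rfl fun a _ => ?_
    rw [← Fintype.card_piFinset, ← card_product]
    congr 1
    ext x
    simp only [mem_filter, mem_univ, true_and, mem_product, Fintype.mem_piFinset, funext_iff]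
    constructor
    · rintro ⟨h3, h4⟩
      refine ⟨h4, ?_⟩
      have : (fun i => π (x.1 i)) = a := funext h4
      rwa [this] at h3
    · rintro ⟨h3, h4⟩
      refine ⟨?_, h3⟩
      have : (fun i => π (x.1 i)) = a := funext h3
      rwa [this]
  rw [h2]
  push_cast
  rw [sum_div]
  refine sum_congr rfl fun a _ => ?_
  rw [prod_div_distrib, prod_const, card_univ, Fintype.card_fin]
  field_simp

/-- the numbers with `k` prime factors, all of them `≡ 1` modulo `4` -/
def Ak (k D : ℕ) : Prop := (Squarefree D ∧ ∀ p ∈ D.primeFactors, p % 4 = 1) ∧ D.primeFactors.card = k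

theorem card_tup (k X : ℕ) (P : Finset ℕ → Prop) :
    ((TT k X).filter fun p => P (univ.image p)).card =
      k.factorial * ((Icc 1 X).filter fun D => Ak k D ∧ P D.primeFactors).card := by
  rw [card_eq_sum_card_fiberwise (f := fun p => ∏ i, p i)
    (t := (Icc 1 X).filter fun D => Ak k D ∧ P D.primeFactors)]
  · have key : ∀ D ∈ (Icc 1 X).filter (fun D => Ak k D ∧ P D.primeFactors),
        (((TT k X).filter fun p => P (univ.image p)).filter fun p => ∏ i, p i = D).card =
          k.factorial := by
      intro D hD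
      rw [mem_filter, mem_Icc] at hD
      obtain ⟨⟨hD1, hD2⟩, ⟨⟨hsq, h4⟩, hk⟩, hP⟩ := hD
      have hcard : Fintype.card (Fin k ↪ D.primeFactors) = k.factorial := by
        rw [Fintype.card_embedding_eq, Fintype.card_coe, Fintype.card_fin, hk, Nat.descFactorial_self]
      rw [← hcard, ← Finset.card_univ (α := Fin k ↪ D.primeFactors)]
      symm
      have himg : ∀ p : Fin k → ℕ, Function.Injective p → (∀ i, p i ∈ D.primeFactors) →
          univ.image p = D.primeFactors := by
        intro p hp1 hp2
        apply eq_of_subset_of_card_le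
        · intro q hq
          rw [mem_image] at hq
          obtain ⟨i, -, rfl⟩ := hq
          exact hp2 i
        · rw [card_image_of_injective _ hp1, card_univ, Fintype.card_fin, hk]
      have hprod : ∀ p : Fin k → ℕ, Function.Injective p → (∀ i, p i ∈ D.primeFactors) →
          ∏ i, p i = D := by
        intro p hp1 hp2
        rw [← prod_image (f := fun x => x) (fun a _ b _ h => hp1 h), himg p hp1 hp2]
        exact Nat.prod_primeFactors_of_squarefree hsq
      refine card_bij (fun (e : Fin k ↪ D.primeFactors) _ => fun i => (e i : ℕ)) ?_ ?_ ?_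
      · intro e _
        have hp1 : Function.Injective fun i => (e i : ℕ) := fun a b hab =>
          e.injective (Subtype.ext hab)
        have hp2 : ∀ i, (e i : ℕ) ∈ D.primeFactors := fun i => (e i).2
        rw [mem_filter, mem_filter, mem_TT]
        refine ⟨⟨⟨fun i => ⟨Nat.prime_of_mem_primeFactors (hp2 i), h4 _ (hp2 i)⟩, hp1, ?_⟩, ?_⟩, ?_⟩
        · rw [hprod _ hp1 hp2]
          exact hD2
        · rw [himg _ hp1 hp2]
          exact hP
        · exact hprod _ hp1 hp2
      · intro e _ e' _ h
        ext i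
        exact congrFun h i
      · intro p hp
        rw [mem_filter, mem_filter, mem_TT] at hp
        obtain ⟨⟨⟨hp1, hp2, hp3⟩, hp4⟩, hp5⟩ := hp
        have hp6 : ∀ i, p i ∈ D.primeFactors := by
          intro i
          rw [Nat.mem_primeFactors]
          refine ⟨(hp1 i).1, ?_, hsq.ne_zero⟩
          rw [← hp5]
          exact dvd_prod_of_mem p (mem_univ i)
        exact ⟨⟨fun i => ⟨p i, hp6 i⟩, fun a b hab => hp2 (congrArg Subtype.val hab)⟩, mem_univ _, rfl⟩
    rw [sum_congr rfl key, sum_const, smul_eq_mul, mul_comm]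
  · intro p hp
    rw [mem_coe, mem_filter, mem_TT] at hp
    obtain ⟨⟨hp1, hp2, hp3⟩, hp4⟩ := hp
    have e1 : (∏ i, p i).primeFactors = univ.image p := by
      rw [← prod_image (f := fun x => x) (fun a _ b _ h => hp2 h)]
      refine Nat.primeFactors_prod fun q hq => ?_
      rw [mem_image] at hq
      obtain ⟨i, -, rfl⟩ := hq
      exact (hp1 i).1
    rw [mem_coe, mem_filter, mem_Icc]
    refine ⟨⟨prod_pos' hp1, hp3⟩, ⟨⟨?_, ?_⟩, ?_⟩, ?_⟩
    · refine Finset.squarefree_prod_of_pairwise_isCoprime (fun a _ b _ hab => ?_)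
        fun i _ => (hp1 i).1.squarefree
      show IsRelPrime (p a) (p b)
      rw [← Nat.coprime_iff_isRelPrime]
      exact (Nat.coprime_primes (hp1 a).1 (hp1 b).1).2 fun h => hab (hp2 h)
    · intro q hq
      rw [e1, mem_image] at hq
      obtain ⟨i, -, rfl⟩ := hq
      exact (hp1 i).2
    · rw [e1, card_image_of_injective _ hp2, card_univ, Fintype.card_fin]
    · rw [e1]
      exact hp4

/-- the ratios for tuples and for numbers agree -/
theorem ratio_eq (k X : ℕ) (P : Finset ℕ → Prop) :
    (((TT k X).filter fun p => P (univ.image p)).card : ℝ) / ((TT k X).card : ℝ) =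
      (((Icc 1 X).filter fun D => Ak k D ∧ P D.primeFactors).card : ℝ) /
        (((Icc 1 X).filter fun D => Ak k D).card : ℝ) := by
  have h1 := card_tup k X P
  obtain ⟨T, hT⟩ : ∃ T : Finset ℕ → Prop, ∀ S, T S := ⟨fun _ => True, fun _ => trivial⟩
  have h2 := card_tup k X T
  have e1 : (TT k X).filter (fun p => T (univ.image p)) = TT k X :=
    filter_true_of_mem fun p _ => hT _
  have e2 : (Icc 1 X).filter (fun D => Ak k D ∧ T D.primeFactors) =
      (Icc 1 X).filter fun D => Ak k D := by
    refine filter_congr fun D _ => ?_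
    simp [hT]
  rw [e1, e2] at h2
  rw [h1, h2]
  push_cast
  have hk : ((k.factorial : ℕ) : ℝ) ≠ 0 := by exact_mod_cast (Nat.factorial_pos k).ne'
  rw [mul_div_mul_left _ _ hk]

end Pool.Agent.H20PT.KP
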